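import Mathlib

/-!
# Definitions for MP_15dca6_an

`E` is a complex normed space and `T : E →L[ℂ] E` a bounded linear operator on it.
-/

namespace Pool.Agent.Lib.MP_15dca6_an

variable {E : Type*} [NormedAddCommGroup E] [NormedSpace ℂ E]

/-- The essential spectrum of `T`, that is, the spectrum of the image of `T` in the Calkin algebra
(bounded operators modulo compact operators): `μ` lies in it if and only if there is no bounded
operator `S` with both `S (T - μ) - 1` and `(T - μ) S - 1` compact. -/
def essentialSpectrum (T : E →L[ℂ] E) : Set ℂ :=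
  {μ : ℂ | ¬ ∃ S : E →L[ℂ] E,
    IsCompactOperator (S * (T - μ • (1 : E →L[ℂ] E)) - 1 : E →L[ℂ] E) ∧
    IsCompactOperator ((T - μ • (1 : E →L[ℂ] E)) * S - 1 : E →L[ℂ] E)}

/-- The class of operators of the problem: every closed invariant subspace `M` of `T` with
`M ≠ 0` and `M ≠ E` has finite codimension. -/
def OnlyFiniteCodim (T : E →L[ℂ] E) : Prop :=
  ∀ M : Submodule ℂ E, IsClosed (M : Set E) → (∀ x ∈ M, T x ∈ M) → M ≠ ⊥ → M ≠ ⊤ →
    FiniteDimensional ℂ (E ⧸ M)

end Pool.Agent.Lib.MP_15dca6_an
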