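import Mathlib

open Set Topology Filter Metric MeasureTheory

namespace Pool.Agent.Lib.MP_15dca6_an

/-- twice the operator `∂/∂\bar z` applied to a real valued function -/
noncomputable def dbar (χ : ℂ → ℝ) (z : ℂ) : ℂ :=
  (fderiv ℝ χ z 1 : ℂ) + Complex.I * (fderiv ℝ χ z Complex.I : ℂ)

theorem integral_fderiv_zero (g : ℂ → ℂ) (hg : ContDiff ℝ 1 g) (hc : HasCompactSupport g) (v : ℂ) :
    ∫ z, fderiv ℝ g z v = 0 := by
  have hgd : Differentiable ℝ g := hg.differentiable (by norm_num)
  have h := integral_mul_fderiv_eq_neg_fderiv_mul_of_integrable (μ := (volume : Measure ℂ))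
    (f := fun _ : ℂ => (1 : ℂ)) (g := g) (v := v) ?_ ?_ ?_ ?_ ?_
  · simpa using h
  · simp
  · have : Continuous fun z => (1 : ℂ) * fderiv ℝ g z v :=
      continuous_const.mul ((hg.continuous_fderiv (by norm_num)).clm_apply continuous_const)
    apply this.integrable_of_hasCompactSupport
    have h2 := hc.fderiv_apply (𝕜 := ℝ) v
    simpa using h2
  · simpa using hg.continuous.integrable_of_hasCompactSupport hc
  · intro x _; exact differentiableAt_const _
  · intro x _; exact hgd x

theorem continuous_dbar {χ : ℂ → ℝ} (h : ContDiff ℝ 1 χ) : Continuous (dbar χ) := by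
  have h1 := h.continuous_fderiv (by norm_num : (1 : WithTop ℕ∞) ≠ 0)
  unfold dbar
  exact (Complex.continuous_ofReal.comp (h1.clm_apply continuous_const)).add
    (continuous_const.mul (Complex.continuous_ofReal.comp (h1.clm_apply continuous_const)))

theorem dbar_eq_zero_of_eventually {χ : ℂ → ℝ} {w : ℂ} (h : ∀ᶠ z in 𝓝 w, χ z = χ w) :
    dbar χ w = 0 := by
  have h1 : χ =ᶠ[𝓝 w] fun _ => χ w := h
  have h2 : fderiv ℝ χ w = 0 := by
    rw [h1.fderiv_eq]; simp
  simp [dbar, h2]

theorem dbar_eventually_zero {χ : ℂ → ℝ} {w : ℂ} (h : ∀ᶠ z in 𝓝 w, χ z = χ w) :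
    ∀ᶠ z in 𝓝 w, dbar χ z = 0 := by
  have h2 := h.eventually_nhds
  filter_upwards [h2, h] with z hz hzw
  apply dbar_eq_zero_of_eventually
  filter_upwards [hz] with u hu
  rw [hu, hzw]

theorem hasCompactSupport_dbar {χ : ℂ → ℝ} (h : HasCompactSupport χ) :
    HasCompactSupport (dbar χ) := by
  have h1 : HasCompactSupport (fderiv ℝ χ) := h.fderiv (𝕜 := ℝ)
  apply h1.mono
  intro z hz
  contrapose! hz
  have h2 : fderiv ℝ χ z = 0 := by simpa using hz
  simp [dbar, h2]

/-- step function on the line -/
noncomputable def hfun (t : ℝ) : ℝ := 1 - Real.smoothTransition (t - 1)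

theorem hfun_contDiff {n : ℕ∞} : ContDiff ℝ n hfun := by
  unfold hfun
  exact contDiff_const.sub (Real.smoothTransition.contDiff.comp (contDiff_id.sub contDiff_const))

theorem hfun_antitone : Antitone hfun := by
  intro s t hst
  have := Real.smoothTransition.monotone (by linarith : s - 1 ≤ t - 1)
  simp only [hfun]
  linarith

theorem hfun_one {t : ℝ} (ht : t ≤ 1) : hfun t = 1 := by
  simp [hfun, Real.smoothTransition.zero_of_nonpos (by linarith : t - 1 ≤ 0)]

theorem hfun_zero {t : ℝ} (ht : 2 ≤ t) : hfun t = 0 := by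
  simp [hfun, Real.smoothTransition.one_of_one_le (by linarith : 1 ≤ t - 1)]

noncomputable def ψ (z : ℂ) : ℝ := hfun (Complex.normSq z)

theorem normSq_contDiff {n : ℕ∞} : ContDiff ℝ n (fun z : ℂ => Complex.normSq z) := by
  have : (fun z : ℂ => Complex.normSq z) = fun z : ℂ => Complex.reCLM z * Complex.reCLM z +
      Complex.imCLM z * Complex.imCLM z := by
    ext z; simp [Complex.normSq_apply]
  rw [this]
  exact (Complex.reCLM.contDiff.mul Complex.reCLM.contDiff).add
    (Complex.imCLM.contDiff.mul Complex.imCLM.contDiff)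

theorem normSq_hasFDerivAt (z v : ℂ) :
    fderiv ℝ (fun z : ℂ => Complex.normSq z) z v = 2 * (z.re * v.re + z.im * v.im) := by
  have h1 : HasFDerivAt (fun z : ℂ => Complex.reCLM z * Complex.reCLM z +
      Complex.imCLM z * Complex.imCLM z) _ z :=
    ((Complex.reCLM.hasFDerivAt (x := z)).mul (Complex.reCLM.hasFDerivAt (x := z))).add
      ((Complex.imCLM.hasFDerivAt (x := z)).mul (Complex.imCLM.hasFDerivAt (x := z)))
  have h2 : (fun z : ℂ => Complex.normSq z) = fun z : ℂ => Complex.reCLM z * Complex.reCLM z +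
      Complex.imCLM z * Complex.imCLM z := by
    ext z; simp [Complex.normSq_apply]
  rw [h2, h1.fderiv]
  simp
  ring

theorem ψ_contDiff {n : ℕ∞} : ContDiff ℝ n ψ := hfun_contDiff.comp normSq_contDiff

theorem ψ_compact : HasCompactSupport ψ := by
  apply HasCompactSupport.of_support_subset_isCompact (isCompact_closedBall (0 : ℂ) 2)
  intro z hz
  rw [mem_closedBall_zero_iff]
  by_contra hcon
  push Not at hcon
  apply hz
  apply hfun_zero
  rw [Complex.normSq_eq_norm_sq]
  nlinarith

theorem ψ_near_zero : ∀ᶠ z in 𝓝 (0 : ℂ), ψ z = 1 := by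
  filter_upwards [Metric.closedBall_mem_nhds (0 : ℂ) one_pos] with z hz
  rw [mem_closedBall_zero_iff] at hz
  apply hfun_one
  rw [Complex.normSq_eq_norm_sq]
  nlinarith [norm_nonneg z]

theorem dbar_ψ (z : ℂ) : dbar ψ z = 2 * ((deriv hfun (Complex.normSq z) : ℝ) : ℂ) * z := by
  have h1 : DifferentiableAt ℝ hfun (Complex.normSq z) :=
    (hfun_contDiff (n := 1)).differentiable (by norm_num) _
  have h2 : DifferentiableAt ℝ (fun z : ℂ => Complex.normSq z) z :=
    (normSq_contDiff (n := 1)).differentiable (by norm_num) _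
  have h3 : ∀ v, fderiv ℝ ψ z v = 2 * (z.re * v.re + z.im * v.im) * deriv hfun (Complex.normSq z) := by
    intro v
    have h4 : fderiv ℝ ψ z = (fderiv ℝ hfun (Complex.normSq z)).comp
        (fderiv ℝ (fun z : ℂ => Complex.normSq z) z) := fderiv_comp z h1 h2
    rw [h4, ContinuousLinearMap.comp_apply, normSq_hasFDerivAt, ← fderiv_apply_one_eq_deriv]
    simp
  rw [dbar, h3, h3]
  simp only [Complex.one_re, Complex.one_im, Complex.I_re, Complex.I_im, mul_one, mul_zero,
    add_zero, zero_add]
  generalize deriv hfun (Complex.normSq z) = d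
  conv_rhs => rw [← Complex.re_add_im z]
  push_cast
  ring

/-- The constant in the Cauchy-Pompeiu formula. -/
noncomputable def cc : ℂ := ∫ z, dbar ψ z / (0 - z)

theorem cc_ne_zero : cc ≠ 0 := by
  have h1 : ∀ z : ℂ, z ≠ 0 → dbar ψ z / (0 - z) = ((-2 * deriv hfun (Complex.normSq z) : ℝ) : ℂ) := by
    intro z hz
    rw [dbar_ψ]
    push_cast
    field_simp
    ring
  have h2 : cc = ∫ z : ℂ, ((-2 * deriv hfun (Complex.normSq z) : ℝ) : ℂ) := by
    apply integral_congr_ae
    have : ∀ᵐ z : ℂ, z ≠ 0 := by
      simp [ae_iff]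
    filter_upwards [this] with z hz using h1 z hz
  rw [h2, integral_complex_ofReal]
  have hcont : Continuous fun z : ℂ => -2 * deriv hfun (Complex.normSq z) := by
    apply continuous_const.mul
    exact ((hfun_contDiff (n := 1)).continuous_deriv (by norm_num)).comp
      (normSq_contDiff (n := 0)).continuous
  have hnn : ∀ z : ℂ, 0 ≤ -2 * deriv hfun (Complex.normSq z) := by
    intro z
    have := hfun_antitone.deriv_nonpos (x := Complex.normSq z)
    linarith
  have hsupp : HasCompactSupport fun z : ℂ => -2 * deriv hfun (Complex.normSq z) := by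
    apply HasCompactSupport.of_support_subset_isCompact (isCompact_closedBall (0 : ℂ) 2)
    intro z hz
    rw [mem_closedBall_zero_iff]
    by_contra hcon
    push Not at hcon
    apply hz
    have h3 : hfun =ᶠ[𝓝 (Complex.normSq z)] fun _ => 0 := by
      have : (2 : ℝ) < Complex.normSq z := by
        rw [Complex.normSq_eq_norm_sq]; nlinarith
      filter_upwards [lt_mem_nhds this] with t ht using hfun_zero ht.le
    simp [h3.deriv_eq]
  have hint : Integrable fun z : ℂ => -2 * deriv hfun (Complex.normSq z) :=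
    hcont.integrable_of_hasCompactSupport hsupp
  have hpos : 0 < ∫ z : ℂ, -2 * deriv hfun (Complex.normSq z) := by
    rw [integral_pos_iff_support_of_nonneg (fun z => hnn z) hint]
    apply IsOpen.measure_pos _ hcont.isOpen_support
    -- nonempty support
    obtain ⟨t, ht, htd⟩ := exists_deriv_eq_slope hfun (by norm_num : (0 : ℝ) < 3)
      (hfun_contDiff (n := 1)).continuous.continuousOn
      (((hfun_contDiff (n := 1)).differentiable (by norm_num)).differentiableOn)
    rw [hfun_zero (by norm_num), hfun_one (by norm_num)] at htd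
    refine ⟨(Real.sqrt t : ℂ), ?_⟩
    have h4 : Complex.normSq (Real.sqrt t : ℂ) = t := by
      rw [Complex.normSq_ofReal, Real.mul_self_sqrt ht.1.le]
    simp only [Function.mem_support, h4, htd]
    norm_num
  intro h0
  have : (∫ z : ℂ, -2 * deriv hfun (Complex.normSq z)) = 0 := by exact_mod_cast h0
  linarith

theorem cauchy (χ : ℂ → ℝ) (hχ : ContDiff ℝ 1 χ) (hc : HasCompactSupport χ) (w : ℂ)
    (hw : ∀ᶠ z in 𝓝 w, χ z = χ w) : ∫ z, dbar χ z / (w - z) = cc * χ w := by
  -- auxiliary function
  let N : ℂ → ℂ := fun z => (χ z : ℂ) - (χ w : ℂ) * (ψ (z - w) : ℂ)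
  let f : ℂ → ℂ := fun z => N z / (w - z)
  have hψw : ContDiff ℝ 1 fun z : ℂ => ψ (z - w) := (ψ_contDiff (n := 1)).comp (contDiff_id.sub contDiff_const)
  have hN : ContDiff ℝ 1 N := by
    apply ContDiff.sub
    · exact Complex.ofRealCLM.contDiff.comp hχ
    · exact contDiff_const.mul (Complex.ofRealCLM.contDiff.comp hψw)
  have hψw' : ∀ᶠ z in 𝓝 w, ψ (z - w) = 1 := by
    have h1 : Tendsto (fun z : ℂ => z - w) (𝓝 w) (𝓝 0) := by
      have : Tendsto (fun z : ℂ => z - w) (𝓝 w) (𝓝 (w - w)) :=
        (continuous_id.sub continuous_const).tendsto w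
      simpa using this
    exact h1.eventually ψ_near_zero
  have hN0 : ∀ᶠ z in 𝓝 w, N z = 0 := by
    filter_upwards [hw, hψw'] with z h1 h2
    simp [N, h1, h2]
  have hf0 : ∀ᶠ z in 𝓝 w, f z = 0 := by
    filter_upwards [hN0] with z hz
    simp [f, hz]
  have hf : ContDiff ℝ 1 f := by
    rw [contDiff_iff_contDiffAt]
    intro z
    by_cases hz : z = w
    · subst hz
      have h1 : f =ᶠ[𝓝 z] fun _ => 0 := hf0
      exact contDiffAt_const.congr_of_eventuallyEq h1
    · have h7 : f = fun z => N z * (w - z)⁻¹ := by ext z; simp [f, div_eq_mul_inv]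
      rw [h7]
      apply ContDiffAt.mul hN.contDiffAt
      apply ContDiffAt.inv
      · exact contDiffAt_const.sub contDiffAt_id
      · exact sub_ne_zero.2 (fun h => hz h.symm)
  have hψc : HasCompactSupport fun z : ℂ => ψ (z - w) := by
    have := ψ_compact.comp_homeomorph (Homeomorph.subRight w)
    exact this
  have hNc : HasCompactSupport N := by
    apply HasCompactSupport.sub
    · exact hc.comp_left (g := fun t : ℝ => (t : ℂ)) (by simp)
    · apply HasCompactSupport.mul_left
      exact hψc.comp_left (g := fun t : ℝ => (t : ℂ)) (by simp)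
  have hfc : HasCompactSupport f := by
    have : f = fun z => N z * (w - z)⁻¹ := by ext z; simp [f, div_eq_mul_inv]
    rw [this]
    exact hNc.mul_right
  have hzero : ∫ z, (fderiv ℝ f z 1 + Complex.I * fderiv ℝ f z Complex.I) = 0 := by
    have i1 : ∀ v : ℂ, Integrable fun z => fderiv ℝ f z v := by
      intro v
      have : Continuous fun z => fderiv ℝ f z v :=
        (hf.continuous_fderiv (by norm_num)).clm_apply continuous_const
      exact this.integrable_of_hasCompactSupport (hfc.fderiv_apply (𝕜 := ℝ) v)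
    rw [integral_add (i1 1) ((i1 Complex.I).const_mul _), integral_const_mul,
      integral_fderiv_zero f hf hfc, integral_fderiv_zero f hf hfc]
    simp
  have hfd : ∀ z, fderiv ℝ f z 1 + Complex.I * fderiv ℝ f z Complex.I =
      dbar χ z / (w - z) - χ w * (dbar ψ (z - w) / (w - z)) := by
    intro z
    by_cases hz : z = w
    · subst hz
      have h1 : f =ᶠ[𝓝 z] fun _ => 0 := hf0
      rw [h1.fderiv_eq]
      simp
    · have hwz : w - z ≠ 0 := sub_ne_zero.2 (fun h => hz h.symm)
      have d1 : HasFDerivAt N (fderiv ℝ N z) z := (hN.differentiable (by norm_num) z).hasFDerivAt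
      have d2 : HasDerivAt (fun z : ℂ => (w - z)⁻¹) (((w - z) ^ 2)⁻¹) z := by
        have e0 : HasDerivAt (fun z : ℂ => w - z) (-1) z := by
          simpa using (hasDerivAt_id z).const_sub w
        have e1 := e0.inv hwz
        have e2 : ((w - z) ^ 2)⁻¹ = - -1 / (w - z) ^ 2 := by rw [neg_neg, one_div]
        rw [e2]
        exact e1
      have d2' := d2.hasFDerivAt.restrictScalars ℝ
      have d3 : ∀ v : ℂ, fderiv ℝ f z v = fderiv ℝ N z v / (w - z) + N z * v / (w - z) ^ 2 := by
        intro v
        have h7 : f = N * fun z => (w - z)⁻¹ := by ext z; simp [f, div_eq_mul_inv]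
        have d6 := d1.mul d2'
        rw [h7, d6.fderiv]
        simp
        field_simp
        ring
      have d7 : ∀ v : ℂ, fderiv ℝ N z v = (fderiv ℝ χ z v : ℂ) - χ w * (fderiv ℝ ψ (z - w) v : ℂ) := by
        intro v
        have e1 : HasFDerivAt (fun z => (χ z : ℂ)) (Complex.ofRealCLM.comp (fderiv ℝ χ z)) z :=
          Complex.ofRealCLM.hasFDerivAt.comp z (hχ.differentiable (by norm_num) z).hasFDerivAt
        have e2 : HasFDerivAt (fun z : ℂ => z - w) (ContinuousLinearMap.id ℝ ℂ) z :=
          (hasFDerivAt_id (𝕜 := ℝ) z).sub_const w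
        have e5 : HasFDerivAt ψ (fderiv ℝ ψ (z - w)) (z - w) :=
          ((ψ_contDiff (n := 1)).differentiable (by norm_num) (z - w)).hasFDerivAt
        have e6 : HasFDerivAt (fun z : ℂ => ψ (z - w))
            ((fderiv ℝ ψ (z - w)).comp (ContinuousLinearMap.id ℝ ℂ)) z :=
          HasFDerivAt.comp (f := fun z : ℂ => z - w) (g := ψ) z e5 e2
        have e3 : HasFDerivAt (fun z => (ψ (z - w) : ℂ)) (Complex.ofRealCLM.comp
            ((fderiv ℝ ψ (z - w)).comp (ContinuousLinearMap.id ℝ ℂ))) z :=
          Complex.ofRealCLM.hasFDerivAt.comp z e6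
        have e4 : HasFDerivAt N _ z := e1.sub (e3.const_mul (χ w : ℂ))
        rw [e4.fderiv]
        simp
      rw [d3, d3, d7, d7]
      simp only [dbar]
      field_simp
      ring_nf
      rw [Complex.I_sq]
      ring
  have h3 : ∫ z, (dbar χ z / (w - z) - χ w * (dbar ψ (z - w) / (w - z))) = 0 := by
    rw [← hzero]
    exact integral_congr_ae (Eventually.of_forall fun z => (hfd z).symm)
  have hi : ∀ (φ : ℂ → ℝ), ContDiff ℝ 1 φ → HasCompactSupport φ → ∀ u : ℂ,
      (∀ᶠ z in 𝓝 u, φ z = φ u) → Integrable fun z => dbar φ z / (u - z) := by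
    intro φ h1 h2 u h3
    have hc1 : Continuous fun z => dbar φ z / (u - z) := by
      rw [continuous_iff_continuousAt]
      intro z
      by_cases hz : z = u
      · subst hz
        have h4 : (fun x => dbar φ x / (z - x)) =ᶠ[𝓝 z] fun _ => 0 := by
          filter_upwards [dbar_eventually_zero h3] with x hx
          simp [hx]
        exact continuousAt_const.congr h4.symm
      · exact (continuous_dbar h1).continuousAt.div
          (continuous_const.sub continuous_id).continuousAt (sub_ne_zero.2 (fun h => hz h.symm))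
    apply hc1.integrable_of_hasCompactSupport
    have h5 : (fun z => dbar φ z / (u - z)) = fun z => dbar φ z * (u - z)⁻¹ := by
      ext z; simp [div_eq_mul_inv]
    rw [h5]
    exact (hasCompactSupport_dbar h2).mul_right
  have hψi : Integrable fun z => dbar ψ z / (0 - z) :=
    hi ψ (ψ_contDiff (n := 1)) ψ_compact 0 (by
      have h1 : ψ 0 = 1 := ψ_near_zero.self_of_nhds
      rw [h1]; exact ψ_near_zero)
  have htrans : ∀ z : ℂ, dbar ψ (z - w) / (w - z) = (fun y => dbar ψ y / (0 - y)) (z - w) := by
    intro z; simp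
  have hψi2 : Integrable fun z => dbar ψ (z - w) / (w - z) := by
    simp_rw [htrans]
    exact hψi.comp_sub_right w
  rw [integral_sub (hi χ hχ hc w hw) (hψi2.const_mul _), integral_const_mul, sub_eq_zero] at h3
  rw [h3, mul_comm]
  congr 1
  simp_rw [htrans]
  rw [integral_sub_right_eq_self (fun y => dbar ψ y / (0 - y)) w]
  rfl



section Riesz

variable {A : Type*} [NormedRing A] [NormedAlgebra ℂ A] [CompleteSpace A]

theorem resolvent_mul_left (a : A) {z : ℂ} (hz : z ∈ resolventSet ℂ a) :
    (algebraMap ℂ A z - a) * resolvent a z = 1 :=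
  Ring.mul_inverse_cancel _ hz

theorem resolvent_mul_right (a : A) {z : ℂ} (hz : z ∈ resolventSet ℂ a) :
    resolvent a z * (algebraMap ℂ A z - a) = 1 :=
  Ring.inverse_mul_cancel _ hz

/-- Riesz idempotents in a Banach algebra. -/
theorem riesz (a : A) (Ω : Set ℂ) (hΩ : IsOpen Ω) (hb : Bornology.IsBounded Ω)
    (hfr : frontier Ω ⊆ resolventSet ℂ a) (h1 : (spectrum ℂ a ∩ Ω).Nonempty)
    (h2 : (spectrum ℂ a \ Ω).Nonempty) :
    ∃ e : A, e * e = e ∧ Commute e a ∧ e ≠ 0 ∧ e ≠ 1 := by
  have hσc : IsClosed (spectrum ℂ a ∩ Ω) := by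
    have : spectrum ℂ a ∩ Ω = spectrum ℂ a ∩ closure Ω := by
      ext z
      constructor
      · rintro ⟨ha, hz⟩; exact ⟨ha, subset_closure hz⟩
      · rintro ⟨ha, hz⟩
        refine ⟨ha, ?_⟩
        by_contra hcon
        have : z ∈ frontier Ω := by
          rw [frontier, hΩ.interior_eq]; exact ⟨hz, hcon⟩
        exact ha (hfr this)
    rw [this]
    exact (spectrum.isClosed a).inter isClosed_closure
  obtain ⟨χm, hχ1, hχ0, hχI⟩ := exists_contMDiffMap_one_nhds_of_subset_interior (n := 1)
    (modelWithCornersSelf ℝ ℂ) (s := spectrum ℂ a ∩ Ω) (t := Ω) hσc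
    (by rw [hΩ.interior_eq]; exact inter_subset_right)
  let χ : ℂ → ℝ := χm
  have hχ : ContDiff ℝ 1 χ := contMDiff_iff_contDiff.1 χm.contMDiff
  have hχc : HasCompactSupport χ := by
    apply HasCompactSupport.of_support_subset_isCompact (K := closure Ω) hb.isCompact_closure
    intro z hz
    by_contra hcon
    exact hz (hχ0 z fun h => hcon (subset_closure h))
  -- local constancy near the spectrum
  have hloc1 : ∀ z ∈ spectrum ℂ a, z ∈ Ω → ∀ᶠ w in 𝓝 z, χ w = 1 := by
    intro z hz hzΩ
    rw [eventually_nhdsSet_iff_forall] at hχ1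
    exact hχ1 z ⟨hz, hzΩ⟩
  have hloc0 : ∀ z, z ∈ spectrum ℂ a → z ∉ Ω → ∀ᶠ w in 𝓝 z, χ w = 0 := by
    intro z hz hzΩ
    have hzc : z ∉ closure Ω := by
      intro h
      have : z ∈ frontier Ω := by
        rw [frontier, hΩ.interior_eq]; exact ⟨h, hzΩ⟩
      exact hz (hfr this)
    filter_upwards [isClosed_closure.isOpen_compl.mem_nhds hzc] with w hw
    exact hχ0 w fun h => hw (subset_closure h)
  have hloc : ∀ z ∈ spectrum ℂ a, ∀ᶠ w in 𝓝 z, χ w = χ z := by
    intro z hz
    by_cases hzΩ : z ∈ Ω
    · have h := hloc1 z hz hzΩ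
      rw [h.self_of_nhds]; exact h
    · have h := hloc0 z hz hzΩ
      rw [h.self_of_nhds]; exact h
  have hdb : ∀ z, dbar χ z ≠ 0 → z ∈ resolventSet ℂ a := by
    intro z hz
    by_contra hcon
    exact hz (dbar_eq_zero_of_eventually (hloc z hcon))
  have hRd : ∀ z ∈ resolventSet ℂ a, HasDerivAt (resolvent a) (-resolvent a z ^ 2) z := fun z hz =>
    spectrum.hasDerivAt_resolvent_const_left hz
  -- the kernel functions
  have hKcont : ∀ g : ℂ → ℂ, (∀ z, dbar χ z ≠ 0 → ContinuousAt g z) →
      (∀ z, dbar χ z = 0 → (∀ᶠ w in 𝓝 z, dbar χ w = 0) ∨ ContinuousAt g z) →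
      Continuous fun z => (dbar χ z * g z) • resolvent a z := by
    intro g hg hg'
    rw [continuous_iff_continuousAt]
    intro z
    by_cases hz : z ∈ resolventSet ℂ a
    · by_cases hz0 : dbar χ z = 0
      · rcases hg' z hz0 with h | h
        · have : (fun z => (dbar χ z * g z) • resolvent a z) =ᶠ[𝓝 z] fun _ => 0 := by
            filter_upwards [h] with w hw
            simp [hw]
          exact continuousAt_const.congr this.symm
        · exact ((continuous_dbar hχ).continuousAt.mul h).smul (hRd z hz).continuousAt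
      · exact ((continuous_dbar hχ).continuousAt.mul (hg z hz0)).smul (hRd z hz).continuousAt
    · have : (fun z => (dbar χ z * g z) • resolvent a z) =ᶠ[𝓝 z] fun _ => 0 := by
        filter_upwards [dbar_eventually_zero (hloc z hz)] with w hw
        simp [hw]
      exact continuousAt_const.congr this.symm
  have hKcomp : ∀ g : ℂ → ℂ, HasCompactSupport fun z => (dbar χ z * g z) • resolvent a z := by
    intro g
    exact ((hasCompactSupport_dbar hχc).mul_right (f' := g)).smul_right
  -- the two integrals
  let K : A := ∫ z, (dbar χ z * 1) • resolvent a z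
  let F : ℂ → A := fun w => ∫ z, (dbar χ z * (w - z)⁻¹) • resolvent a z
  have hKint : Integrable fun z => (dbar χ z * 1) • resolvent a z :=
    (hKcont (fun _ => 1) (fun _ _ => continuousAt_const)
      (fun _ _ => Or.inr continuousAt_const)).integrable_of_hasCompactSupport (hKcomp _)
  have hgood : ∀ w, (∀ᶠ z in 𝓝 w, χ z = χ w) → ∀ n : ℕ,
      Continuous fun z => (dbar χ z * ((w - z) ^ n)⁻¹) • resolvent a z := by
    intro w hw n
    apply hKcont
    · intro z hz
      have hzw : z ≠ w := by
        rintro rfl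
        exact hz (dbar_eq_zero_of_eventually hw)
      exact ((continuous_const.sub continuous_id).pow n).continuousAt.inv₀
        (pow_ne_zero _ (sub_ne_zero.2 hzw.symm))
    · intro z hz
      by_cases hzw : z = w
      · left; rw [hzw]; exact dbar_eventually_zero hw
      · right
        exact ((continuous_const.sub continuous_id).pow n).continuousAt.inv₀
          (pow_ne_zero _ (sub_ne_zero.2 (Ne.symm hzw)))
  have hFint : ∀ w, (∀ᶠ z in 𝓝 w, χ z = χ w) →
      Integrable fun z => (dbar χ z * (w - z)⁻¹) • resolvent a z := by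
    intro w hw
    have h := hgood w hw 1
    simp only [pow_one] at h
    exact h.integrable_of_hasCompactSupport (hKcomp _)
  have hFeq : ∀ w, (∀ᶠ z in 𝓝 w, χ z = χ w) →
      (algebraMap ℂ A w - a) * F w = K + (cc * χ w) • (1 : A) := by
    intro w hw
    have e1 : (algebraMap ℂ A w - a) * F w =
        ∫ z, (algebraMap ℂ A w - a) * ((dbar χ z * (w - z)⁻¹) • resolvent a z) := by
      exact ((ContinuousLinearMap.mul ℂ A (algebraMap ℂ A w - a)).integral_comp_comm (hFint w hw)).symm
    have e2 : ∀ z, (algebraMap ℂ A w - a) * ((dbar χ z * (w - z)⁻¹) • resolvent a z) =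
        (dbar χ z * 1) • resolvent a z + (dbar χ z / (w - z)) • (1 : A) := by
      intro z
      by_cases hz : dbar χ z = 0
      · simp [hz]
      · have hzw : z ≠ w := by
          rintro rfl
          exact hz (dbar_eq_zero_of_eventually hw)
        have hwz : w - z ≠ 0 := sub_ne_zero.2 hzw.symm
        have e3 : algebraMap ℂ A w - a = (w - z) • (1 : A) + (algebraMap ℂ A z - a) := by
          rw [Algebra.algebraMap_eq_smul_one, Algebra.algebraMap_eq_smul_one, sub_smul]
          abel
        rw [e3, add_mul, mul_smul_comm, mul_smul_comm, resolvent_mul_left a (hdb z hz),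
          smul_mul_assoc, one_mul, smul_smul]
        congr 2
        rw [mul_assoc, inv_mul_cancel₀ hwz]
    have hi2 : Integrable fun z => (dbar χ z / (w - z)) • (1 : A) := by
      apply Integrable.smul_const
      have hc1 : Continuous fun z => dbar χ z / (w - z) := by
        rw [continuous_iff_continuousAt]
        intro z
        by_cases hz : z = w
        · subst hz
          have h4 : (fun x => dbar χ x / (z - x)) =ᶠ[𝓝 z] fun _ => 0 := by
            filter_upwards [dbar_eventually_zero hw] with x hx
            simp [hx]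
          exact continuousAt_const.congr h4.symm
        · exact (continuous_dbar hχ).continuousAt.div
            (continuous_const.sub continuous_id).continuousAt (sub_ne_zero.2 (fun h => hz h.symm))
      apply hc1.integrable_of_hasCompactSupport
      have h5 : (fun z => dbar χ z / (w - z)) = fun z => dbar χ z * (w - z)⁻¹ := by
        ext z; simp [div_eq_mul_inv]
      rw [h5]
      exact (hasCompactSupport_dbar hχc).mul_right
    rw [e1]
    simp_rw [e2]
    rw [integral_add hKint hi2, integral_smul_const, cauchy χ hχ hχc w hw]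
  have hgcomm : ∀ g : ℂ → ℂ, Integrable (fun z => (dbar χ z * g z) • resolvent a z) →
      Commute (∫ z, (dbar χ z * g z) • resolvent a z) a := by
    intro g hgint
    have e1 : (∫ z, (dbar χ z * g z) • resolvent a z) * a =
        ∫ z, ((dbar χ z * g z) • resolvent a z) * a :=
      (((ContinuousLinearMap.mul ℂ A).flip a).integral_comp_comm hgint).symm
    have e2 : a * (∫ z, (dbar χ z * g z) • resolvent a z) =
        ∫ z, a * ((dbar χ z * g z) • resolvent a z) :=
      ((ContinuousLinearMap.mul ℂ A a).integral_comp_comm hgint).symm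
    show _ * a = a * _
    rw [e1, e2]
    congr 1
    ext z
    by_cases hz : dbar χ z = 0
    · simp [hz]
    · have hz' := hdb z hz
      have h3 : resolvent a z * a = a * resolvent a z := by
        have h4 := resolvent_mul_left a hz'
        have h5 := resolvent_mul_right a hz'
        rw [sub_mul] at h4
        rw [mul_sub] at h5
        have h6 : algebraMap ℂ A z * resolvent a z = resolvent a z * algebraMap ℂ A z :=
          Algebra.commutes _ _
        rw [h6] at h4
        rw [← h4] at h5
        exact sub_right_injective h5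
      rw [smul_mul_assoc, mul_smul_comm, h3]
  have hKcomm : Commute K a := hgcomm (fun _ => 1) hKint
  -- differentiability of `F`
  have hFd : ∀ w₀, (∀ᶠ z in 𝓝 w₀, χ z = χ w₀) → DifferentiableAt ℂ F w₀ := by
    intro w₀ hw₀
    obtain ⟨δ, hδ, hball⟩ := Metric.eventually_nhds_iff_ball.1 (hw₀.and (dbar_eventually_zero hw₀))
    have hsep : ∀ x ∈ ball w₀ (δ / 2), ∀ z, dbar χ z ≠ 0 → δ / 2 ≤ ‖x - z‖ := by
      intro x hx z hz
      have h3 : z ∉ ball w₀ δ := fun h => hz (hball z h).2
      rw [mem_ball, not_lt] at h3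
      rw [mem_ball] at hx
      have h4 := dist_triangle z x w₀
      rw [dist_comm z x, dist_eq_norm x z] at h4
      linarith
    have hev : ∀ x ∈ ball w₀ (δ / 2), ∀ᶠ z in 𝓝 x, χ z = χ x := by
      intro x hx
      have hx' : x ∈ ball w₀ δ := ball_subset_ball (by linarith) hx
      filter_upwards [isOpen_ball.mem_nhds hx'] with z hz
      rw [(hball z hz).1, (hball x hx').1]
    have hs : ball w₀ (δ / 2) ∈ 𝓝 w₀ := ball_mem_nhds _ (by linarith)
    have key := hasDerivAt_integral_of_dominated_loc_of_deriv_le (μ := (volume : Measure ℂ))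
      (F := fun x z => (dbar χ z * (x - z)⁻¹) • resolvent a z)
      (F' := fun x z => -((dbar χ z * ((x - z) ^ 2)⁻¹) • resolvent a z))
      (x₀ := w₀) (s := ball w₀ (δ / 2))
      (bound := fun z => ‖(dbar χ z * 1) • resolvent a z‖ * ((δ / 2) ^ 2)⁻¹) hs ?_ ?_ ?_ ?_ ?_ ?_
    · exact key.2.differentiableAt
    · filter_upwards [hs] with x hx
      exact (hFint x (hev x hx)).aestronglyMeasurable
    · exact hFint w₀ hw₀
    · exact (hgood w₀ hw₀ 2).aestronglyMeasurable.neg
    · refine Eventually.of_forall fun z x hx => ?_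
      by_cases hz : dbar χ z = 0
      · simp [hz]
      · have h5 := hsep x hx z hz
        rw [norm_neg, norm_smul, norm_smul, norm_mul, norm_mul, norm_inv, norm_pow, norm_one, mul_one]
        have h6 : (‖x - z‖ ^ 2)⁻¹ ≤ ((δ / 2) ^ 2)⁻¹ := by
          apply inv_anti₀ (by positivity)
          gcongr
        calc ‖dbar χ z‖ * (‖x - z‖ ^ 2)⁻¹ * ‖resolvent a z‖
            ≤ ‖dbar χ z‖ * ((δ / 2) ^ 2)⁻¹ * ‖resolvent a z‖ := by gcongr
          _ = _ := by ring
    · exact hKint.norm.mul_const _
    · refine Eventually.of_forall fun z x hx => ?_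
      by_cases hz : dbar χ z = 0
      · simp only [hz, zero_mul, zero_smul, neg_zero]
        exact hasDerivAt_const _ _
      · have h5 := hsep x hx z hz
        have hxz : x - z ≠ 0 := by
          intro h
          rw [h, norm_zero] at h5
          linarith
        have h6 : HasDerivAt (fun x : ℂ => (x - z)⁻¹) (-((x - z) ^ 2)⁻¹) x := by
          have h7 : HasDerivAt (fun x : ℂ => x - z) 1 x := (hasDerivAt_id x).sub_const z
          have h8 := h7.inv hxz
          have h9 : -((x - z) ^ 2)⁻¹ = -1 / (x - z) ^ 2 := by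
            rw [neg_div, one_div]
          rw [h9]; exact h8
        have h7 := (h6.const_mul (dbar χ z)).smul_const (resolvent a z)
        convert h7 using 1
        rw [mul_neg, neg_smul]
  -- the idempotent
  let e : A := -(cc⁻¹ • K)
  let F' : ℂ → A := fun w => cc⁻¹ • F w
  have hF' : ∀ w, (∀ᶠ z in 𝓝 w, χ z = χ w) →
      (algebraMap ℂ A w - a) * F' w = (χ w : ℂ) • (1 : A) - e := by
    intro w hw
    simp only [F', e]
    rw [mul_smul_comm, hFeq w hw, smul_add, smul_smul, ← mul_assoc, inv_mul_cancel₀ cc_ne_zero,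
      one_mul]
    abel
  have hecomm : Commute e a := (hKcomm.smul_left _).neg_left
  have hFcomm : ∀ w, (∀ᶠ z in 𝓝 w, χ z = χ w) → Commute (algebraMap ℂ A w - a) (F' w) := by
    intro w hw
    have h3 : Commute (F' w) a := (hgcomm (fun z => (w - z)⁻¹) (hFint w hw)).smul_left _
    have h4 : Commute (F' w) (algebraMap ℂ A w) := (Algebra.commutes w (F' w)).symm
    exact (h4.sub_right h3).symm
  let W : A := e * (1 - e)
  let G : ℂ → A := fun w => by
    classical
    exact if w ∈ resolventSet ℂ a then resolvent a w * W else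
      if χ w = 0 then -(F' w * (1 - e)) else F' w * e
  have hG1 : ∀ w ∈ resolventSet ℂ a, G w = resolvent a w * W := by
    intro w hw
    simp only [G, if_pos hw]
  have hG : ∀ w, (algebraMap ℂ A w - a) * G w = W ∧ DifferentiableAt ℂ G w := by
    intro w
    by_cases hw : w ∈ resolventSet ℂ a
    · constructor
      · rw [hG1 w hw, ← mul_assoc, resolvent_mul_left a hw, one_mul]
      · have h3 : G =ᶠ[𝓝 w] fun w => resolvent a w * W := by
          filter_upwards [(spectrum.isOpen_resolventSet a).mem_nhds hw] with u hu using hG1 u hu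
        have h4 : DifferentiableAt ℂ (fun w => resolvent a w * W) w :=
          (hRd w hw).differentiableAt.mul_const W
        exact h4.congr_of_eventuallyEq h3
    · have hws : w ∈ spectrum ℂ a := hw
      have hlw := hloc w hws
      by_cases hwΩ : w ∈ Ω
      · have hχw := hloc1 w hws hwΩ
        have hall : ∀ᶠ u in 𝓝 w, (algebraMap ℂ A u - a) * (F' u * e) = W := by
          filter_upwards [hχw.eventually_nhds] with u hu
          have hu1 : χ u = 1 := hu.self_of_nhds
          have h5 := hF' u (by rw [hu1]; exact hu)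
          rw [← mul_assoc, h5, hu1]
          simp only [Complex.ofReal_one, one_smul, W]
          noncomm_ring
        have h6 : G =ᶠ[𝓝 w] fun u => F' u * e := by
          filter_upwards [hall, hχw] with u hu hu1
          by_cases hur : u ∈ resolventSet ℂ a
          · rw [hG1 u hur, ← hu, ← mul_assoc, resolvent_mul_right a hur, one_mul]
          · simp only [G, if_neg hur, hu1, one_ne_zero, if_false]
        constructor
        · rw [h6.self_of_nhds]; exact hall.self_of_nhds
        · have h8 : DifferentiableAt ℂ F' w := (hFd w hlw).const_smul cc⁻¹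
          have h7 : DifferentiableAt ℂ (fun u => F' u * e) w := h8.mul_const e
          exact h7.congr_of_eventuallyEq h6
      · have hχw := hloc0 w hws hwΩ
        have hall : ∀ᶠ u in 𝓝 w, (algebraMap ℂ A u - a) * (-(F' u * (1 - e))) = W := by
          filter_upwards [hχw.eventually_nhds] with u hu
          have hu1 : χ u = 0 := hu.self_of_nhds
          have h5 := hF' u (by rw [hu1]; exact hu)
          rw [mul_neg, ← mul_assoc, h5, hu1]
          simp only [Complex.ofReal_zero, zero_smul, W]
          noncomm_ring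
        have h6 : G =ᶠ[𝓝 w] fun u => -(F' u * (1 - e)) := by
          filter_upwards [hall, hχw] with u hu hu1
          by_cases hur : u ∈ resolventSet ℂ a
          · rw [hG1 u hur, ← hu, ← mul_assoc, resolvent_mul_right a hur, one_mul]
          · simp only [G, if_neg hur, hu1, if_true]
        constructor
        · rw [h6.self_of_nhds]; exact hall.self_of_nhds
        · have h8 : DifferentiableAt ℂ F' w := (hFd w hlw).const_smul cc⁻¹
          have h7 : DifferentiableAt ℂ (fun u => -(F' u * (1 - e))) w := (h8.mul_const (1 - e)).neg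
          exact h7.congr_of_eventuallyEq h6
  have hGt : Tendsto G (cocompact ℂ) (𝓝 0) := by
    rw [← Metric.cobounded_eq_cocompact]
    have h3 : G =ᶠ[Bornology.cobounded ℂ] fun w => resolvent a w * W := by
      filter_upwards [spectrum.eventually_isUnit_resolvent (𝕜 := ℂ) a] with w hw
      exact hG1 w (spectrum.isUnit_resolvent.2 hw)
    have h4 : Tendsto (fun w => resolvent a w * W) (Bornology.cobounded ℂ) (𝓝 (0 * W)) :=
      (spectrum.resolvent_tendsto_cobounded a).mul_const W
    rw [zero_mul] at h4
    exact h4.congr' h3.symm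
  have hG0 : G 0 = 0 :=
    Differentiable.apply_eq_of_tendsto_cocompact (fun w => (hG w).2) 0 hGt
  have hW : W = 0 := by
    rw [← (hG 0).1, hG0, mul_zero]
  refine ⟨e, ?_, hecomm, ?_, ?_⟩
  · have h3 : e * (1 - e) = 0 := hW
    rw [mul_sub, mul_one, sub_eq_zero] at h3
    exact h3.symm
  · intro he
    obtain ⟨w, hws, hwΩ⟩ := h1
    have h5 := hF' w (hloc w hws)
    rw [(hloc1 w hws hwΩ).self_of_nhds, he] at h5
    simp only [Complex.ofReal_one, one_smul, sub_zero] at h5
    have h6 : F' w * (algebraMap ℂ A w - a) = 1 := by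
      rw [← (hFcomm w (hloc w hws)).eq, h5]
    exact hws (spectrum.mem_resolventSet_of_left_right_inverse h5 h6)
  · intro he
    obtain ⟨w, hws, hwΩ⟩ := h2
    have h5 := hF' w (hloc w hws)
    rw [(hloc0 w hws hwΩ).self_of_nhds, he] at h5
    simp only [Complex.ofReal_zero, zero_smul, zero_sub] at h5
    have h6 : (algebraMap ℂ A w - a) * -F' w = 1 := by rw [mul_neg, h5, neg_neg]
    have h7 : -F' w * (algebraMap ℂ A w - a) = 1 := by
      rw [neg_mul, ← (hFcomm w (hloc w hws)).eq, h5, neg_neg]
    exact hws (spectrum.mem_resolventSet_of_left_right_inverse h6 h7)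

end Riesz

end Pool.Agent.Lib.MP_15dca6_an
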