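import Mathlib

open Set Topology Filter Metric

namespace Pool.Agent.Lib.MP_15dca6_an

/-- A continuous real function that takes integer values on the complement of a ball in the plane
is constant there. -/
theorem const_outside (f : ℂ → ℝ) (hf : Continuous f) (R : ℝ) (hR : 0 < R)
    (hint : ∀ z : ℂ, R < ‖z‖ → ∃ n : ℤ, f z = n) :
    ∃ n : ℤ, ∀ z : ℂ, R < ‖z‖ → f z = n := by
  have hconn : IsPreconnected {z : ℂ | R < ‖z‖} := by
    have h1 : IsPreconnected ((Ioi R) ×ˢ (sphere (0 : ℂ) 1)) := by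
      apply IsPreconnected.prod isPreconnected_Ioi
      apply isPreconnected_sphere
      rw [Complex.rank_real_complex]
      norm_num
    have h2 := h1.image (fun p : ℝ × ℂ => (p.1 : ℂ) * p.2)
      ((Complex.continuous_ofReal.comp continuous_fst).mul continuous_snd).continuousOn
    convert h2 using 1
    ext z
    constructor
    · intro hz
      have hz' : R < ‖z‖ := hz
      have hz0 : (‖z‖ : ℂ) ≠ 0 := by
        have : (0 : ℝ) < ‖z‖ := hR.trans hz'
        exact_mod_cast this.ne'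
      refine ⟨(‖z‖, z / ‖z‖), ⟨hz', ?_⟩, ?_⟩
      · simp only [mem_sphere_iff_norm, sub_zero, norm_div, Complex.norm_real, norm_norm]
        exact div_self (hR.trans hz').ne'
      · simp only
        field_simp
    · rintro ⟨⟨t, w⟩, ⟨ht, hw⟩, rfl⟩
      have ht' : R < t := ht
      have hw' : ‖w‖ = 1 := by simpa using hw
      show R < ‖(t : ℂ) * w‖
      rw [norm_mul, hw', mul_one, Complex.norm_real, Real.norm_eq_abs]
      exact ht'.trans_le (le_abs_self t)
  have himg := hconn.image f hf.continuousOn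
  -- pick a point
  obtain ⟨n, hn⟩ := hint ((R + 1 : ℝ) : ℂ) (by
    rw [Complex.norm_real, Real.norm_eq_abs, abs_of_pos (by linarith)]; linarith)
  refine ⟨n, fun z hz => ?_⟩
  by_contra hne
  obtain ⟨m, hm⟩ := hint z hz
  have hz1 : f z ∈ f '' {z : ℂ | R < ‖z‖} := ⟨z, hz, rfl⟩
  have hz2 : f ((R + 1 : ℝ) : ℂ) ∈ f '' {z : ℂ | R < ‖z‖} := ⟨_, by
    show R < _
    rw [Complex.norm_real, Real.norm_eq_abs, abs_of_pos (by linarith)]; linarith, rfl⟩
  have hoc := himg.ordConnected
  have hmn : m ≠ n := by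
    rintro rfl
    exact hne hm
  rw [hm] at hz1
  rw [hn] at hz2
  rcases lt_or_gt_of_ne hmn with h | h
  · have h3 : ((m : ℝ) + 1 / 2) ∈ f '' {z : ℂ | R < ‖z‖} := by
      apply hoc.out hz1 hz2
      have : (m : ℝ) + 1 ≤ n := by exact_mod_cast h
      constructor <;> linarith
    obtain ⟨w, hw, hw2⟩ := h3
    obtain ⟨k, hk⟩ := hint w hw
    rw [hk] at hw2
    have h4 : (2 * k : ℝ) = 2 * m + 1 := by linarith
    have h5 : (2 * k : ℤ) = 2 * m + 1 := by exact_mod_cast h4
    omega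
  · have h3 : ((n : ℝ) + 1 / 2) ∈ f '' {z : ℂ | R < ‖z‖} := by
      apply hoc.out hz2 hz1
      have : (n : ℝ) + 1 ≤ m := by exact_mod_cast h
      constructor <;> linarith
    obtain ⟨w, hw, hw2⟩ := h3
    obtain ⟨k, hk⟩ := hint w hw
    rw [hk] at hw2
    have h4 : (2 * k : ℝ) = 2 * n + 1 := by linarith
    have h5 : (2 * k : ℤ) = 2 * n + 1 := by exact_mod_cast h4
    omega

theorem exp_eq_one_iff' (t : ℝ) : Circle.exp (2 * Real.pi * t) = 1 ↔ ∃ n : ℤ, t = n := by
  constructor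
  · intro h
    have h1 : Circle.exp (2 * Real.pi * t) = Circle.exp 0 := by rw [h, Circle.exp_zero]
    rw [Circle.exp_eq_exp] at h1
    obtain ⟨m, hm⟩ := h1
    refine ⟨m, ?_⟩
    have hpi : (2 * Real.pi) ≠ 0 := by positivity
    have : (2 * Real.pi) * t = (2 * Real.pi) * m := by linarith
    exact mul_left_cancel₀ hpi this
  · rintro ⟨n, rfl⟩
    rw [mul_comm]
    rw [← zsmul_eq_mul, Circle.exp_zsmul, Circle.exp_two_pi, one_zpow]

/-- Planar separation lemma. -/
theorem separation (U₀ U₁ K₁ K₂ : Set ℂ) (hU₀ : IsOpen U₀) (hU₁ : IsOpen U₁)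
    (hU : Disjoint U₀ U₁) (hK₁ : IsCompact K₁) (hK₂ : IsCompact K₂) (hK : Disjoint K₁ K₂)
    (hK₁n : K₁.Nonempty)
    (hcov : (U₀ ∪ U₁)ᶜ = K₁ ∪ K₂) (R : ℝ) (hR : ∀ z : ℂ, R < ‖z‖ → z ∈ U₀) :
    (∃ Ω : Set ℂ, IsOpen Ω ∧ Bornology.IsBounded Ω ∧ frontier Ω ⊆ U₁ ∧ (Ω ∩ (K₁ ∪ K₂)).Nonempty) ∨
    (∃ Ω : Set ℂ, IsOpen Ω ∧ Bornology.IsBounded Ω ∧ frontier Ω ⊆ U₀ ∧ K₁ ⊆ Ω ∧ Disjoint K₂ Ω) := by
  classical
  -- distance between the two pieces
  obtain ⟨ε, hε, hdist⟩ : ∃ ε > 0, ∀ z ∈ K₂, ε ≤ infDist z K₁ := by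
    rcases K₂.eq_empty_or_nonempty with h | h
    · exact ⟨1, one_pos, by simp [h]⟩
    · obtain ⟨z0, hz0, hmin⟩ := hK₂.exists_isMinOn h (continuous_infDist_pt K₁).continuousOn
      refine ⟨infDist z0 K₁, ?_, fun z hz => hmin hz⟩
      exact (hK₁.isClosed.notMem_iff_infDist_pos hK₁n).1 (fun h => hK.le_bot ⟨h, hz0⟩)
  let χ : ℂ → ℝ := fun z => max 0 (min 1 (2 - 3 * infDist z K₁ / ε))
  have hχc : Continuous χ := by
    apply continuous_const.max
    apply continuous_const.min
    apply continuous_const.sub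
    exact (continuous_const.mul (continuous_infDist_pt K₁)).div_const ε
  have hχ1 : ∀ z, infDist z K₁ < ε / 3 → χ z = 1 := by
    intro z hz
    have h1 : 3 * infDist z K₁ / ε < 1 := by
      rw [div_lt_one hε]; linarith
    have h2 : min 1 (2 - 3 * infDist z K₁ / ε) = 1 := min_eq_left (by linarith)
    simp only [χ, h2]
    norm_num
  have hχ0 : ∀ z, 2 * ε / 3 < infDist z K₁ → χ z = 0 := by
    intro z hz
    have h1 : 2 < 3 * infDist z K₁ / ε := by
      rw [lt_div_iff₀ hε]; linarith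
    have h2 : min 1 (2 - 3 * infDist z K₁ / ε) ≤ 0 := (min_le_right _ _).trans (by linarith)
    exact max_eq_left h2
  obtain ⟨B, hB⟩ := hK₁.isBounded.exists_norm_le
  set R' : ℝ := max (max R 1) (B + ε + 1) with hR'
  have hR'pos : 0 < R' := lt_of_lt_of_le one_pos ((le_max_right _ _).trans (le_max_left _ _))
  have hRR' : R ≤ R' := (le_max_left _ _).trans (le_max_left _ _)
  have hχfar : ∀ z : ℂ, R' < ‖z‖ → χ z = 0 := by
    intro z hz
    apply hχ0
    have h1 : ε ≤ infDist z K₁ := by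
      rw [le_infDist hK₁n]
      intro y hy
      have h2 : ‖z‖ ≤ dist z y + ‖y‖ := by
        rw [dist_eq_norm]
        calc ‖z‖ = ‖(z - y) + y‖ := by ring_nf
          _ ≤ _ := norm_add_le _ _
      have h3 := hB y hy
      have h4 : B + ε + 1 ≤ R' := le_max_right _ _
      linarith
    linarith
  -- the circle valued map
  let u : ℂ → Circle := fun z => if z ∈ U₀ then Circle.exp (2 * Real.pi * χ z) else 1
  have hexpχ : Continuous fun z => Circle.exp (2 * Real.pi * χ z) :=
    Circle.exp.continuous.comp (continuous_const.mul hχc)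
  have hintχ : ∀ z ∈ K₁ ∪ K₂, ∀ᶠ w in 𝓝 z, χ w = 0 ∨ χ w = 1 := by
    intro z hz
    rcases hz with hz | hz
    · have h1 : {w | infDist w K₁ < ε / 3} ∈ 𝓝 z := by
        apply (isOpen_lt (continuous_infDist_pt K₁) continuous_const).mem_nhds
        show infDist z K₁ < ε / 3
        rw [infDist_zero_of_mem hz]; positivity
      filter_upwards [h1] with w hw using Or.inr (hχ1 w hw)
    · have h1 : {w | 2 * ε / 3 < infDist w K₁} ∈ 𝓝 z := by
        apply (isOpen_lt continuous_const (continuous_infDist_pt K₁)).mem_nhds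
        show 2 * ε / 3 < infDist z K₁
        have := hdist z hz
        linarith
      filter_upwards [h1] with w hw using Or.inl (hχ0 w hw)
  have huc : Continuous u := by
    rw [continuous_iff_continuousAt]
    intro z
    by_cases hz0 : z ∈ U₀
    · have : u =ᶠ[𝓝 z] fun z => Circle.exp (2 * Real.pi * χ z) := by
        filter_upwards [hU₀.mem_nhds hz0] with w hw
        simp [u, hw]
      exact (hexpχ.continuousAt (x := z)).congr this.symm
    · by_cases hz1 : z ∈ U₁
      · have : u =ᶠ[𝓝 z] fun _ => 1 := by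
          filter_upwards [hU₁.mem_nhds hz1] with w hw
          have : w ∉ U₀ := fun h => hU.le_bot ⟨h, hw⟩
          simp [u, this]
        exact continuousAt_const.congr this.symm
      · have hzK : z ∈ K₁ ∪ K₂ := by
          rw [← hcov]
          intro h
          rcases h with h | h
          · exact hz0 h
          · exact hz1 h
        have : u =ᶠ[𝓝 z] fun _ => 1 := by
          filter_upwards [hintχ z hzK] with w hw
          have h1 : Circle.exp (2 * Real.pi * χ w) = 1 := by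
            rw [exp_eq_one_iff']
            rcases hw with hw | hw
            · exact ⟨0, by simp [hw]⟩
            · exact ⟨1, by simp [hw]⟩
          simp only [u, h1, ite_self]
        exact continuousAt_const.congr this.symm
  -- lift to the real line
  have hufar : ∀ z : ℂ, R' < ‖z‖ → u z = 1 := by
    intro z hz
    simp only [u, hχfar z hz, mul_zero, Circle.exp_zero, ite_self]
  obtain ⟨F, ⟨_, hF⟩, _⟩ := Circle.isCoveringMap_exp.existsUnique_continuousMap_lifts
    (⟨u, huc⟩ : C(ℂ, Circle)) ((R' + 1 : ℝ) : ℂ) 0 (by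
      have h1 : R' < ‖((R' + 1 : ℝ) : ℂ)‖ := by
        rw [Complex.norm_real, Real.norm_eq_abs, abs_of_pos (by linarith)]; linarith
      rw [Circle.exp_zero]
      exact (hufar _ h1).symm)
  have hFz : ∀ z, Circle.exp (F z) = u z := fun z => congrFun hF z
  let φ : ℂ → ℝ := fun z => F z / (2 * Real.pi)
  have hφc : Continuous φ := F.continuous.div_const _
  have hφF : ∀ z, F z = 2 * Real.pi * φ z := by
    intro z
    simp only [φ]
    field_simp
  have hφ0 : ∀ z, z ∉ U₀ → ∃ n : ℤ, φ z = n := by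
    intro z hz
    rw [← exp_eq_one_iff', ← hφF, hFz]
    simp [u, hz]
  have hφ1 : ∀ z, z ∈ U₀ → ∃ n : ℤ, χ z - φ z = n := by
    intro z hz
    rw [← exp_eq_one_iff', mul_sub, ← hφF, sub_eq_add_neg, Circle.exp_add, Circle.exp_neg, hFz]
    simp [u, hz]
  obtain ⟨N, hN⟩ := const_outside φ hφc R' hR'pos (by
    intro z hz
    obtain ⟨n, hn⟩ := hφ1 z (hR z (hRR'.trans_lt hz))
    rw [hχfar z hz] at hn
    refine ⟨-n, ?_⟩
    push_cast
    linarith)
  let χ₀ : ℂ → ℝ := fun z => φ z - N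
  let χ₁ : ℂ → ℝ := fun z => χ z - χ₀ z
  have hχ₀c : Continuous χ₀ := hφc.sub continuous_const
  have hχ₁c : Continuous χ₁ := hχc.sub hχ₀c
  have hχ₀int : ∀ z, z ∉ U₀ → ∃ n : ℤ, χ₀ z = n := by
    intro z hz
    obtain ⟨n, hn⟩ := hφ0 z hz
    exact ⟨n - N, by simp only [χ₀, hn]; push_cast; ring⟩
  have hχ₁int : ∀ z, z ∉ U₁ → ∃ n : ℤ, χ₁ z = n := by
    intro z hz
    by_cases hz0 : z ∈ U₀
    · obtain ⟨n, hn⟩ := hφ1 z hz0
      exact ⟨n + N, by simp only [χ₁, χ₀]; push_cast; linarith⟩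
    · obtain ⟨n, hn⟩ := hχ₀int z hz0
      have hzK : z ∈ K₁ ∪ K₂ := by
        rw [← hcov]
        intro h
        rcases h with h | h
        · exact hz0 h
        · exact hz h
      rcases (hintχ z hzK).self_of_nhds with h | h
      · exact ⟨-n, by simp only [χ₁, hn, h]; push_cast; ring⟩
      · exact ⟨1 - n, by simp only [χ₁, hn, h]; push_cast; ring⟩
  have hχ₀far : ∀ z : ℂ, R' < ‖z‖ → χ₀ z = 0 := by
    intro z hz
    simp only [χ₀, hN z hz, sub_self]
  have hχ₁far : ∀ z : ℂ, R' < ‖z‖ → χ₁ z = 0 := by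
    intro z hz
    simp only [χ₁, hχ₀far z hz, hχfar z hz, sub_self]
  -- general facts on superlevel sets
  have hlevel : ∀ f : ℂ → ℝ, Continuous f → (∀ z : ℂ, R' < ‖z‖ → f z = 0) → ∀ U : Set ℂ,
      (∀ z, z ∉ U → ∃ n : ℤ, f z = n) →
      IsOpen {z | 1 / 2 < |f z|} ∧ Bornology.IsBounded {z | 1 / 2 < |f z|} ∧
        frontier {z | 1 / 2 < |f z|} ⊆ U := by
    intro f hf hfar U hint
    refine ⟨isOpen_lt continuous_const hf.abs, ?_, ?_⟩
    · apply (isBounded_closedBall (x := (0 : ℂ)) (r := R')).subset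
      intro z hz
      rw [mem_closedBall_zero_iff]
      by_contra hcon
      push Not at hcon
      have h1 : (1 : ℝ) / 2 < |f z| := hz
      rw [hfar z hcon, abs_zero] at h1
      norm_num at h1
    · intro z hz
      have h1 : 1 / 2 = |f z| := frontier_lt_subset_eq continuous_const hf.abs hz
      by_contra hcon
      obtain ⟨n, hn⟩ := hint z hcon
      rw [hn] at h1
      have h2 : (2 * |n| : ℤ) = 1 := by
        have h3 : (2 * |(n : ℝ)| : ℝ) = 1 := by rw [← h1]; norm_num
        exact_mod_cast h3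
      omega
  by_cases hcase : ∀ z ∈ K₁ ∪ K₂, χ₁ z = 0
  · right
    obtain ⟨h1, h2, h3⟩ := hlevel χ₀ hχ₀c hχ₀far U₀ hχ₀int
    refine ⟨_, h1, h2, h3, ?_, ?_⟩
    · intro z hz
      have h4 := hcase z (Or.inl hz)
      have h5 : χ z = 1 := hχ1 z (by rw [infDist_zero_of_mem hz]; positivity)
      have h6 : χ₀ z = 1 := by
        have : χ z - χ₀ z = 0 := h4
        linarith
      show 1 / 2 < |χ₀ z|
      rw [h6]; norm_num
    · rw [disjoint_left]
      intro z hz hz2
      have h4 := hcase z (Or.inr hz)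
      have h5 : χ z = 0 := hχ0 z (by have := hdist z hz; linarith)
      have h6 : χ₀ z = 0 := by
        have : χ z - χ₀ z = 0 := h4
        linarith
      have h7 : 1 / 2 < |χ₀ z| := hz2
      rw [h6] at h7
      norm_num at h7
  · left
    push Not at hcase
    obtain ⟨z, hzK, hz⟩ := hcase
    obtain ⟨h1, h2, h3⟩ := hlevel χ₁ hχ₁c hχ₁far U₁ hχ₁int
    refine ⟨_, h1, h2, h3, z, ?_, hzK⟩
    have hzU : z ∉ U₁ := by
      intro h
      rw [← hcov] at hzK
      exact hzK (Or.inr h)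
    obtain ⟨n, hn⟩ := hχ₁int z hzU
    show 1 / 2 < |χ₁ z|
    rw [hn] at hz ⊢
    have h4 : n ≠ 0 := by exact_mod_cast hz
    have h5 : (1 : ℤ) ≤ |n| := Int.one_le_abs h4
    have h6 : (1 : ℝ) ≤ |(n : ℝ)| := by exact_mod_cast h5
    linarith

end Pool.Agent.Lib.MP_15dca6_an
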