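import Pool.Agent.Lib.MP_15dca6_an.Defs
import Pool.Agent.Lib.MP_15dca6_an.Separation
import Pool.Agent.Lib.MP_15dca6_an.Riesz

open Set Topology Filter Metric Polynomial

namespace Pool.Agent.Lib.MP_15dca6_an

section Op

variable {E : Type*} [NormedAddCommGroup E] [NormedSpace ℂ E]

/-- `T - μ` is bounded below. -/
def BB (T : E →L[ℂ] E) (μ : ℂ) : Prop := ∃ c : ℝ, 0 < c ∧ ∀ x : E, c * ‖x‖ ≤ ‖T x - μ • x‖

theorem injective_of (T : E →L[ℂ] E) (hE : ¬ FiniteDimensional ℂ E) (hT : OnlyFiniteCodim T)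
    (μ : ℂ) (v : E) (hv : T v = μ • v) : v = 0 := by
  by_contra hne
  have hfd : FiniteDimensional ℂ (Submodule.span ℂ {v}) := inferInstance
  have hcl : IsClosed ((Submodule.span ℂ {v} : Submodule ℂ E) : Set E) :=
    Submodule.closed_of_finiteDimensional _
  have hinv : ∀ x ∈ Submodule.span ℂ {v}, T x ∈ Submodule.span ℂ {v} := by
    intro x hx
    obtain ⟨a, rfl⟩ := Submodule.mem_span_singleton.1 hx
    rw [map_smul, hv]
    exact Submodule.smul_mem _ _ (Submodule.smul_mem _ _ (Submodule.mem_span_singleton_self v))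
  have hbot : Submodule.span ℂ {v} ≠ ⊥ := by
    rw [Ne, Submodule.span_singleton_eq_bot]; exact hne
  by_cases htop : Submodule.span ℂ {v} = ⊤
  · apply hE
    rw [htop] at hfd
    exact Module.Finite.equiv (Submodule.topEquiv (R := ℂ) (M := E))
  · have := hT _ hcl hinv hbot htop
    exact hE (Module.Finite.of_submodule_quotient (Submodule.span ℂ {v}))

theorem bb_of_notMem (T : E →L[ℂ] E) (hinj : ∀ (μ : ℂ) (v : E), T v = μ • v → v = 0)
    (μ : ℂ) (hμ : μ ∉ essentialSpectrum T) : BB T μ := by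
  rw [essentialSpectrum, mem_ofPred_eq, not_not] at hμ
  obtain ⟨S, hS, -⟩ := hμ
  by_contra hcon
  have h1 : ∀ n : ℕ, ∃ x : E, ‖x‖ = 1 ∧ ‖T x - μ • x‖ < 1 / ((n : ℝ) + 1) := by
    intro n
    by_contra h
    push Not at h
    apply hcon
    refine ⟨1 / ((n : ℝ) + 1), by positivity, fun x => ?_⟩
    by_cases hx : x = 0
    · simp [hx]
    · have hx' : 0 < ‖x‖ := norm_pos_iff.2 hx
      have h2 := h (((‖x‖⁻¹ : ℝ) : ℂ) • x) (by
        rw [norm_smul, Complex.norm_real, norm_inv, norm_norm, inv_mul_cancel₀ hx'.ne'])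
      rw [map_smul, smul_comm μ, ← smul_sub, norm_smul, Complex.norm_real, norm_inv, norm_norm] at h2
      rw [inv_mul_eq_div, le_div_iff₀ hx'] at h2
      exact h2
  choose x hx1 hx2 using h1
  have hK : ∃ K : Set E, IsCompact K ∧
      (S * (T - μ • (1 : E →L[ℂ] E)) - 1 : E →L[ℂ] E) '' closedBall 0 1 ⊆ K :=
    IsCompactOperator.image_closedBall_subset_compact
      (f := ((S * (T - μ • (1 : E →L[ℂ] E)) - 1 : E →L[ℂ] E) : E →ₗ[ℂ] E)) hS 1
  obtain ⟨K, hK, hsub⟩ := hK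
  have hmem : ∀ n, (S * (T - μ • (1 : E →L[ℂ] E)) - 1 : E →L[ℂ] E) (x n) ∈ K :=
    fun n => hsub ⟨x n, by simp [hx1 n], rfl⟩
  obtain ⟨y, hy, φ, hφ, hlim⟩ := hK.tendsto_subseq hmem
  have hA : Tendsto (fun n => T (x n) - μ • x n) atTop (𝓝 0) := by
    apply squeeze_zero_norm (fun n => (hx2 n).le)
    exact tendsto_one_div_add_atTop_nhds_zero_nat
  have hSA : Tendsto (fun n => S (T (x n) - μ • x n)) atTop (𝓝 0) := by
    have := (S.continuous.tendsto 0).comp hA
    rw [map_zero] at this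
    exact this
  have hxlim : Tendsto (fun n => x (φ n)) atTop (𝓝 (-y)) := by
    have h3 := ((hSA.comp hφ.tendsto_atTop).sub hlim)
    rw [zero_sub] at h3
    refine h3.congr fun n => ?_
    simp
  have hn : ‖-y‖ = 1 := by
    have h4 := hxlim.norm
    refine tendsto_nhds_unique h4 ?_
    simp [hx1]
  have hAy : T (-y) - μ • (-y) = 0 := by
    have h5 : Tendsto (fun n => T (x (φ n)) - μ • x (φ n)) atTop (𝓝 (T (-y) - μ • (-y))) :=
      ((T.continuous.tendsto _).comp hxlim).sub (hxlim.const_smul μ)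
    exact tendsto_nhds_unique h5 (hA.comp hφ.tendsto_atTop)
  have := hinj μ (-y) (sub_eq_zero.1 hAy)
  rw [this, norm_zero] at hn
  exact zero_ne_one hn

/-- Divided differences: `p(T)x - p(ν)x = (T - ν) G(ν)`. -/
theorem exists_G (T : E →L[ℂ] E) (x : E) (M : Submodule ℂ E) (hM : ∀ y ∈ M, T y ∈ M) (hx : x ∈ M)
    (p : ℂ[X]) :
    ∃ G : ℂ → E, Differentiable ℂ G ∧ (∀ ν, G ν ∈ M) ∧
      ∀ ν, aeval T p x = p.eval ν • x + (T (G ν) - ν • G ν) := by
  induction p using Polynomial.induction_on with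
  | C a =>
    refine ⟨fun _ => 0, differentiable_const _, fun _ => M.zero_mem, fun ν => ?_⟩
    simp [Algebra.algebraMap_eq_smul_one]
  | add p q hp hq =>
    obtain ⟨G, hG1, hG2, hG3⟩ := hp
    obtain ⟨H, hH1, hH2, hH3⟩ := hq
    refine ⟨fun ν => G ν + H ν, hG1.add hH1, fun ν => M.add_mem (hG2 ν) (hH2 ν), fun ν => ?_⟩
    rw [map_add, add_apply, hG3 ν, hH3 ν, eval_add, map_add, add_smul, smul_add]
    abel
  | monomial n a h =>
    obtain ⟨G, hG1, hG2, hG3⟩ := h
    refine ⟨fun ν => T (G ν) + (a * ν ^ n) • x, ?_, fun ν => M.add_mem (hM _ (hG2 ν))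
      (M.smul_mem _ hx), fun ν => ?_⟩
    · apply Differentiable.add
      · exact T.differentiable.comp hG1
      · apply Differentiable.smul_const
        fun_prop
    · have h1 : aeval T (C a * X ^ (n + 1)) x = T (aeval T (C a * X ^ n) x) := by
        rw [pow_succ', ← mul_assoc, mul_comm (C a) X, mul_assoc, map_mul, aeval_X,
          mul_apply_eq_comp]
      rw [h1, hG3 ν]
      simp only [eval_mul, eval_C, eval_pow, eval_X, map_add, map_smul, map_sub]
      rw [smul_add, smul_smul, pow_succ]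
      have : a * (ν ^ n * ν) = ν * (a * ν ^ n) := by ring
      rw [this]
      abel

end Op

end Pool.Agent.Lib.MP_15dca6_an


open Set Topology Filter Metric Polynomial

namespace Pool.Agent.Lib.MP_15dca6_an

section Op

variable {E : Type*} [NormedAddCommGroup E] [NormedSpace ℂ E]

theorem compact_of_finite_range (K : E →L[ℂ] E) (h : (LinearMap.range (K : E →ₗ[ℂ] E)).FG) :
    IsCompactOperator K := by
  have : FiniteDimensional ℂ (LinearMap.range (K : E →ₗ[ℂ] E)) := Module.Finite.of_fg h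
  have : LocallyCompactSpace (LinearMap.range (K : E →ₗ[ℂ] E)) :=
    LocallyCompactSpace.of_finiteDimensional_of_complete ℂ _
  let K' : E →L[ℂ] (LinearMap.range (K : E →ₗ[ℂ] E)) :=
    K.codRestrict _ (fun x => ⟨x, rfl⟩)
  have h1 : IsCompactOperator K' :=
    isCompactOperator_of_locallyCompactSpace_dom K'
  exact h1.clm_comp (LinearMap.range (K : E →ₗ[ℂ] E)).subtypeL

theorem finite_quotient_of_sup (N S : Submodule ℂ E) [FiniteDimensional ℂ S]
    (h : FiniteDimensional ℂ (E ⧸ (N ⊔ S))) : FiniteDimensional ℂ (E ⧸ N) := by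
  have h1 : FiniteDimensional ℂ (S.map N.mkQ) := inferInstance
  have h2 : FiniteDimensional ℂ ((E ⧸ N) ⧸ S.map N.mkQ) :=
    Module.Finite.equiv (Submodule.quotientQuotientEquivQuotientSup N S).symm
  exact Module.Finite.of_submodule_quotient (S.map N.mkQ)

theorem isClosed_image [CompleteSpace E] (T : E →L[ℂ] E) (M : Submodule ℂ E)
    (hMc : IsClosed (M : Set E)) (μ : ℂ) (c : ℝ) (hc : 0 < c)
    (hb : ∀ x ∈ M, c * ‖x‖ ≤ ‖T x - μ • x‖) :
    IsClosed ((M.map ((T - μ • (1 : E →L[ℂ] E) : E →L[ℂ] E) : E →ₗ[ℂ] E) : Submodule ℂ E) :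
      Set E) := by
  have := hMc.completeSpace_coe
  let f : M →L[ℂ] E := (T - μ • (1 : E →L[ℂ] E)) ∘L M.subtypeL
  have hf : AntilipschitzWith (⟨c⁻¹, by positivity⟩) f := by
    apply f.antilipschitz_of_bound
    intro x
    have := hb x x.2
    show ‖(x : E)‖ ≤ c⁻¹ * ‖T x - μ • (x : E)‖
    rw [inv_mul_eq_div, le_div_iff₀ hc, mul_comm]
    exact this
  have h1 := hf.isClosed_range f.uniformContinuous
  convert h1 using 1
  ext y
  simp [f]

/-- `M` is contained in the closure of the `T`-orbit (polynomials) of `x`. -/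
def Cyc (T : E →L[ℂ] E) (M : Submodule ℂ E) (x : E) : Prop :=
  ∀ y ∈ M, y ∈ closure (Set.range fun p : ℂ[X] => aeval T p x)

theorem le_sup [CompleteSpace E] (T : E →L[ℂ] E) (M : Submodule ℂ E)
    (hMc : IsClosed (M : Set E)) (hMT : ∀ y ∈ M, T y ∈ M) (x : E) (hx : x ∈ M)
    (hcyc : Cyc T M x) (μ : ℂ) (c : ℝ) (hc : 0 < c)
    (hb : ∀ x ∈ M, c * ‖x‖ ≤ ‖T x - μ • x‖) :
    M ≤ (M.map ((T - μ • (1 : E →L[ℂ] E) : E →L[ℂ] E) : E →ₗ[ℂ] E)) ⊔ Submodule.span ℂ {x} := by
  set N := (M.map ((T - μ • (1 : E →L[ℂ] E) : E →L[ℂ] E) : E →ₗ[ℂ] E)) with hN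
  have hNc : IsClosed (N : Set E) := isClosed_image T M hMc μ c hc hb
  have hcl : IsClosed ((N ⊔ Submodule.span ℂ {x} : Submodule ℂ E) : Set E) :=
    Submodule.isClosed_sup_finiteDimensional _ _ hNc
  intro y hy
  have h1 := hcyc y hy
  refine closure_minimal ?_ hcl h1
  rintro _ ⟨p, rfl⟩
  obtain ⟨G, -, hG2, hG3⟩ := exists_G T x M hMT hx p
  show aeval T p x ∈ N ⊔ Submodule.span ℂ {x}
  rw [hG3 μ]
  apply Submodule.add_mem
  · exact Submodule.mem_sup_right (Submodule.smul_mem _ _ (Submodule.mem_span_singleton_self x))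
  · apply Submodule.mem_sup_left
    exact ⟨G μ, hG2 μ, rfl⟩

theorem notMem_of_bb [CompleteSpace E] (T : E →L[ℂ] E) (M : Submodule ℂ E)
    (hMc : IsClosed (M : Set E)) (hMT : ∀ y ∈ M, T y ∈ M) (hMf : FiniteDimensional ℂ (E ⧸ M))
    (x : E) (hx : x ∈ M)
    (hcyc : Cyc T M x) (μ : ℂ) (c : ℝ) (hc : 0 < c)
    (hb : ∀ x ∈ M, c * ‖x‖ ≤ ‖T x - μ • x‖) : μ ∉ essentialSpectrum T := by
  set N := (M.map ((T - μ • (1 : E →L[ℂ] E) : E →L[ℂ] E) : E →ₗ[ℂ] E)) with hN
  have hNc : IsClosed (N : Set E) := isClosed_image T M hMc μ c hc hb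
  have hle : M ≤ N ⊔ Submodule.span ℂ {x} := le_sup T M hMc hMT x hx hcyc μ c hc hb
  have h1 : FiniteDimensional ℂ (E ⧸ (N ⊔ Submodule.span ℂ {x})) :=
    Submodule.CoFG.of_le hle hMf
  have hNf : FiniteDimensional ℂ (E ⧸ N) := finite_quotient_of_sup N _ h1
  let u : E →L[ℂ] E := T - μ • (1 : E →L[ℂ] E)
  have hmaps : MapsTo u M N := fun y hy => ⟨y, hy, rfl⟩
  have := hMc.completeSpace_coe
  have := hNc.completeSpace_coe
  have hker : LinearMap.ker (u.restrict hmaps : M →ₗ[ℂ] N) = ⊥ := by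
    rw [LinearMap.ker_eq_bot']
    intro y hy
    have h2 : T y - μ • (y : E) = 0 := congrArg Subtype.val hy
    have h3 := hb y y.2
    rw [h2, norm_zero] at h3
    have h4 : ‖(y : E)‖ ≤ 0 := by
      by_contra hcon
      push Not at hcon
      have := mul_pos hc hcon
      linarith
    have h5 : (y : E) = 0 := norm_le_zero_iff.1 h4
    exact Subtype.ext h5
  have hran : LinearMap.range (u.restrict hmaps : M →ₗ[ℂ] N) = ⊤ := by
    rw [LinearMap.range_eq_top]
    rintro ⟨y, z, hz, rfl⟩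
    exact ⟨⟨z, hz⟩, rfl⟩
  have hinv : (u.restrict hmaps).IsInvertible :=
    ⟨ContinuousLinearEquiv.ofBijective (u.restrict hmaps) hker hran,
      ContinuousLinearEquiv.coe_ofBijective _ _ _⟩
  have hfred : u.IsFredholm :=
    ContinuousLinearMap.IsFredholm.of_isInvertible_restrict hMc (E₁_coFG := hMf) hNc
      (F₁_coFG := hNf) hmaps hinv
  obtain ⟨v, hv1, hv2⟩ := hfred.exists_isQuasiInverse
  rw [essentialSpectrum, mem_ofPred_eq, not_not]
  refine ⟨v, ?_, ?_⟩
  · apply compact_of_finite_range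
    have := LinearMap.FiniteRangeSetoid.equiv_iff_hasFiniteRange.1 hv1
    exact this
  · apply compact_of_finite_range
    have := LinearMap.FiniteRangeSetoid.equiv_iff_hasFiniteRange.1 hv2
    exact this

end Op

end Pool.Agent.Lib.MP_15dca6_an


open Set Topology Filter Metric Polynomial

namespace Pool.Agent.Lib.MP_15dca6_an

section Op

variable {E : Type*} [NormedAddCommGroup E] [NormedSpace ℂ E]

/-- The closed cyclic subspace generated by `x`. -/
noncomputable def cyclic (T : E →L[ℂ] E) (x : E) : Submodule ℂ E :=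
  (LinearMap.range ({ toFun := fun p => aeval T p x
                      map_add' := fun p q => by rw [map_add, add_apply]
                      map_smul' := fun a p => by
                        rw [map_smul, smul_apply, RingHom.id_apply] } : ℂ[X] →ₗ[ℂ] E)).topologicalClosure

theorem cyclic_coe (T : E →L[ℂ] E) (x : E) :
    (cyclic T x : Set E) = closure (Set.range fun p : ℂ[X] => aeval T p x) := by
  rw [cyclic, Submodule.topologicalClosure_coe]
  rfl

theorem mem_cyclic (T : E →L[ℂ] E) (x : E) : x ∈ cyclic T x := by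
  rw [← SetLike.mem_coe, cyclic_coe]
  apply subset_closure
  exact ⟨1, by simp⟩

theorem cyclic_cyc (T : E →L[ℂ] E) (x : E) : Cyc T (cyclic T x) x := by
  intro y hy
  rw [← SetLike.mem_coe, cyclic_coe] at hy
  exact hy

theorem isClosed_cyclic (T : E →L[ℂ] E) (x : E) : IsClosed (cyclic T x : Set E) := by
  rw [cyclic_coe]; exact isClosed_closure

theorem cyclic_inv (T : E →L[ℂ] E) (x : E) : ∀ y ∈ cyclic T x, T y ∈ cyclic T x := by
  intro y hy
  rw [← SetLike.mem_coe, cyclic_coe] at hy ⊢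
  refine map_mem_closure T.continuous hy ?_
  rintro _ ⟨p, rfl⟩
  exact ⟨X * p, by simp⟩

theorem cyclic_finite (T : E →L[ℂ] E) (hT : OnlyFiniteCodim T) (x : E) (hx : x ≠ 0) :
    FiniteDimensional ℂ (E ⧸ cyclic T x) := by
  by_cases h : cyclic T x = ⊤
  · rw [h]; infer_instance
  · apply hT _ (isClosed_cyclic T x) (cyclic_inv T x) _ h
    intro hbot
    have := mem_cyclic T x
    rw [hbot, Submodule.mem_bot] at this
    exact hx this

variable [CompleteSpace E]

theorem notMem_iff_bb (T : E →L[ℂ] E) (hE : ¬ FiniteDimensional ℂ E) (hT : OnlyFiniteCodim T)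
    (μ : ℂ) : μ ∉ essentialSpectrum T ↔ BB T μ := by
  constructor
  · exact bb_of_notMem T (injective_of T hE hT) μ
  · rintro ⟨c, hc, hb⟩
    obtain ⟨x, hx⟩ : ∃ x : E, x ≠ 0 := by
      by_contra hcon
      push Not at hcon
      apply hE
      have : Subsingleton E := ⟨fun a b => by rw [hcon a, hcon b]⟩
      infer_instance
    exact notMem_of_bb T (cyclic T x) (isClosed_cyclic T x) (cyclic_inv T x)
      (cyclic_finite T hT x hx) x (mem_cyclic T x) (cyclic_cyc T x) μ c hc (fun y _ => hb y)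

/-- `U₁` -/
def Ubb (T : E →L[ℂ] E) : Set ℂ := {μ | BB T μ ∧ μ ∉ resolventSet ℂ T}

theorem mem_resolventSet_iff_bij (T : E →L[ℂ] E) (μ : ℂ) :
    μ ∈ resolventSet ℂ T ↔ IsUnit (T - μ • (1 : E →L[ℂ] E)) := by
  rw [spectrum.mem_resolventSet_iff, ← IsUnit.neg_iff, neg_sub, Algebra.algebraMap_eq_smul_one]

theorem bb_of_resolvent (T : E →L[ℂ] E) (μ : ℂ) (h : μ ∈ resolventSet ℂ T) : BB T μ := by
  rw [mem_resolventSet_iff_bij] at h
  obtain ⟨u, hu⟩ := h
  refine ⟨(‖(↑u⁻¹ : E →L[ℂ] E)‖ + 1)⁻¹, by positivity, fun x => ?_⟩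
  have h1 : x = (↑u⁻¹ : E →L[ℂ] E) (T x - μ • x) := by
    have : ((↑u⁻¹ : E →L[ℂ] E) * (u : E →L[ℂ] E)) x = x := by simp
    rw [hu] at this
    exact this.symm
  have h2 : ‖x‖ ≤ ‖(↑u⁻¹ : E →L[ℂ] E)‖ * ‖T x - μ • x‖ := by
    conv_lhs => rw [h1]
    exact ContinuousLinearMap.le_opNorm _ _
  rw [inv_mul_le_iff₀ (by positivity)]
  nlinarith [norm_nonneg (T x - μ • x)]

theorem resolvent_of_surj (T : E →L[ℂ] E) (μ : ℂ) (h : BB T μ)
    (hs : ∀ y : E, ∃ x : E, T x - μ • x = y) : μ ∈ resolventSet ℂ T := by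
  rw [mem_resolventSet_iff_bij]
  obtain ⟨c, hc, hb⟩ := h
  rw [ContinuousLinearMap.isUnit_iff_bijective]
  refine ⟨?_, fun y => hs y⟩
  rw [injective_iff_map_eq_zero]
  intro x hx
  have h1 := hb x
  have h2 : T x - μ • x = 0 := hx
  rw [h2, norm_zero] at h1
  have h4 : ‖x‖ ≤ 0 := by
    by_contra hcon
    push Not at hcon
    have := mul_pos hc hcon
    linarith
  exact norm_le_zero_iff.1 h4

theorem isOpen_Ubb (T : E →L[ℂ] E) : IsOpen (Ubb T) := by
  rw [Metric.isOpen_iff]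
  rintro μ ⟨⟨c, hc, hb⟩, hμ⟩
  refine ⟨c / 2, by positivity, fun ν hν => ?_⟩
  rw [mem_ball, dist_eq_norm] at hν
  have hbν : ∀ x : E, c / 2 * ‖x‖ ≤ ‖T x - ν • x‖ := by
    intro x
    have h1 : T x - μ • x = (T x - ν • x) + (ν - μ) • x := by rw [sub_smul]; abel
    have h2 := hb x
    rw [h1] at h2
    have h3 := norm_add_le (T x - ν • x) ((ν - μ) • x)
    rw [norm_smul] at h3
    have h4 : ‖ν - μ‖ * ‖x‖ ≤ c / 2 * ‖x‖ := mul_le_mul_of_nonneg_right hν.le (norm_nonneg x)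
    linarith
  refine ⟨⟨c / 2, by positivity, hbν⟩, fun hres => hμ ?_⟩
  rw [mem_resolventSet_iff_bij] at hres ⊢
  obtain ⟨u, hu⟩ := hres
  have hinv : ‖(↑u⁻¹ : E →L[ℂ] E)‖ ≤ (c / 2)⁻¹ := by
    apply ContinuousLinearMap.opNorm_le_bound _ (by positivity)
    intro y
    have h5 := hbν ((↑u⁻¹ : E →L[ℂ] E) y)
    have h6 : T ((↑u⁻¹ : E →L[ℂ] E) y) - ν • ((↑u⁻¹ : E →L[ℂ] E) y) = y := by
      have : ((u : E →L[ℂ] E) * (↑u⁻¹ : E →L[ℂ] E)) y = y := by simp
      rw [hu] at this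
      exact this
    rw [h6] at h5
    rw [inv_mul_eq_div, le_div_iff₀ (by positivity), mul_comm]
    exact h5
  rcases (norm_nonneg (↑u⁻¹ : E →L[ℂ] E)).eq_or_lt with h0 | h0
  · -- trivial space
    have h7 : (↑u⁻¹ : E →L[ℂ] E) = 0 := norm_eq_zero.1 h0.symm
    have h8 : (1 : E →L[ℂ] E) = 0 := by
      rw [← u.mul_inv, h7, mul_zero]
    have h9 : T - μ • (1 : E →L[ℂ] E) = 1 := by
      rw [← mul_one (T - μ • (1 : E →L[ℂ] E)), h8, mul_zero]
    rw [h9]; exact isUnit_one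
  · have h10 : ‖(ν - μ) • (1 : E →L[ℂ] E)‖ < ‖(↑u⁻¹ : E →L[ℂ] E)‖⁻¹ := by
      have h11 : c / 2 ≤ ‖(↑u⁻¹ : E →L[ℂ] E)‖⁻¹ := by
        rw [le_inv_comm₀ (by positivity) h0]
        exact hinv
      refine lt_of_le_of_lt ?_ (hν.trans_le h11)
      rw [norm_smul]
      have : ‖(1 : E →L[ℂ] E)‖ ≤ 1 := ContinuousLinearMap.norm_id_le
      exact mul_le_of_le_one_right (norm_nonneg _) this
    refine ⟨u.add _ h10, ?_⟩
    rw [Units.val_add, hu, sub_smul]
    abel

end Op

end Pool.Agent.Lib.MP_15dca6_an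


open Set Topology Filter Metric Polynomial

namespace Pool.Agent.Lib.MP_15dca6_an

section Op

variable {E : Type*} [NormedAddCommGroup E] [NormedSpace ℂ E] [CompleteSpace E]

/-- if `T - ν` is bounded below and not surjective then `x ∉ (T-ν) M`. -/
theorem notMem_image (T : E →L[ℂ] E) (M : Submodule ℂ E)
    (hMc : IsClosed (M : Set E)) (hMT : ∀ y ∈ M, T y ∈ M) (hMf : FiniteDimensional ℂ (E ⧸ M))
    (x : E) (hx : x ∈ M)
    (hcyc : Cyc T M x) (ν : ℂ) (hν : ν ∈ Ubb T) :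
    x ∉ M.map ((T - ν • (1 : E →L[ℂ] E) : E →L[ℂ] E) : E →ₗ[ℂ] E) := by
  intro hxN
  obtain ⟨⟨c, hc, hb⟩, hres⟩ := hν
  apply hres
  have hle := le_sup T M hMc hMT x hx hcyc ν c hc (fun y _ => hb y)
  have hinj : ∀ y : E, T y - ν • y = 0 → y = 0 := by
    intro y hy
    have h1 := hb y
    rw [hy, norm_zero] at h1
    have h4 : ‖y‖ ≤ 0 := by
      by_contra hcon
      push Not at hcon
      have := mul_pos hc hcon
      linarith
    exact norm_le_zero_iff.1 h4
  have hMN : M ≤ M.map ((T - ν • (1 : E →L[ℂ] E) : E →L[ℂ] E) : E →ₗ[ℂ] E) := by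
    refine hle.trans (sup_le le_rfl ?_)
    rw [Submodule.span_singleton_le_iff_mem]
    exact hxN
  apply resolvent_of_surj T ν ⟨c, hc, hb⟩
  -- the quotient map
  let A : E →ₗ[ℂ] E := ((T - ν • (1 : E →L[ℂ] E) : E →L[ℂ] E) : E →ₗ[ℂ] E)
  have hAM : M ≤ M.comap A := fun y hy => M.sub_mem (hMT y hy) (M.smul_mem ν hy)
  let Q : (E ⧸ M) →ₗ[ℂ] (E ⧸ M) := M.mapQ M A hAM
  have hQinj : Function.Injective Q := by
    rw [injective_iff_map_eq_zero]
    intro q hq
    obtain ⟨y, rfl⟩ := M.mkQ_surjective q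
    have h1 : M.mkQ (A y) = 0 := by
      rw [← hq]
      simp [Q]
    rw [Submodule.mkQ_apply, Submodule.Quotient.mk_eq_zero] at h1
    obtain ⟨z, hz, hzy⟩ := hMN h1
    have h2 : T (y - z) - ν • (y - z) = 0 := by
      have h3 : T z - ν • z = T y - ν • y := hzy
      rw [map_sub, smul_sub]
      rw [sub_sub_sub_comm, h3, sub_self]
    have h4 := hinj _ h2
    rw [sub_eq_zero] at h4
    rw [Submodule.mkQ_apply, Submodule.Quotient.mk_eq_zero, h4]
    exact hz
  have hQsurj : Function.Surjective Q := LinearMap.injective_iff_surjective.1 hQinj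
  intro y
  obtain ⟨q, hq⟩ := hQsurj (M.mkQ y)
  obtain ⟨w, rfl⟩ := M.mkQ_surjective q
  have h1 : y - A w ∈ M := by
    rw [← Submodule.Quotient.mk_eq_zero, Submodule.Quotient.mk_sub, sub_eq_zero]
    exact hq.symm
  obtain ⟨z, hz, hzy⟩ := hMN h1
  refine ⟨w + z, ?_⟩
  have h3 : T z - ν • z = y - (T w - ν • w) := hzy
  rw [map_add, smul_add, add_sub_add_comm, h3]
  abel

/-- joint lower bound at a point of `U₁`. -/
theorem joint_bound (T : E →L[ℂ] E) (M : Submodule ℂ E)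
    (hMc : IsClosed (M : Set E)) (hMT : ∀ y ∈ M, T y ∈ M) (hMf : FiniteDimensional ℂ (E ⧸ M))
    (x : E) (hx : x ∈ M)
    (hcyc : Cyc T M x) (ν : ℂ) (hν : ν ∈ Ubb T) :
    ∃ c : ℝ, 0 < c ∧ ∀ (a : ℂ) (v : E), v ∈ M → c * ‖v‖ ≤ ‖a • x + (T v - ν • v)‖ := by
  have hnot := notMem_image T M hMc hMT hMf x hx hcyc ν hν
  obtain ⟨⟨c, hc, hb⟩, hres⟩ := hν
  set N := M.map ((T - ν • (1 : E →L[ℂ] E) : E →L[ℂ] E) : E →ₗ[ℂ] E) with hN
  have hNc : IsClosed (N : Set E) := isClosed_image T M hMc ν c hc (fun y _ => hb y)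
  have hd : 0 < infDist x (N : Set E) :=
    (hNc.notMem_iff_infDist_pos ⟨0, N.zero_mem⟩).1 hnot
  set d := infDist x (N : Set E) with hdd
  have key : ∀ (a : ℂ) (v : E), v ∈ M → ‖a‖ * d ≤ ‖a • x + (T v - ν • v)‖ := by
    intro a v hv
    by_cases ha : a = 0
    · simp [ha]
    · have h1 : -(a⁻¹ • (T v - ν • v)) ∈ N := by
        apply N.neg_mem
        apply N.smul_mem
        exact ⟨v, hv, rfl⟩
      have h2 : d ≤ dist x (-(a⁻¹ • (T v - ν • v))) := infDist_le_dist_of_mem h1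
      rw [dist_eq_norm, sub_neg_eq_add] at h2
      have h3 : a • x + (T v - ν • v) = a • (x + a⁻¹ • (T v - ν • v)) := by
        rw [smul_add, smul_smul, mul_inv_cancel₀ ha, one_smul]
      rw [h3, norm_smul]
      exact mul_le_mul_of_nonneg_left h2 (norm_nonneg a)
  have hxx : 0 < 1 + ‖x‖ / d := by positivity
  refine ⟨c / (1 + ‖x‖ / d), by positivity, fun a v hv => ?_⟩
  have h1 := key a v hv
  have h2 := hb v
  have h3 : ‖T v - ν • v‖ ≤ ‖a • x + (T v - ν • v)‖ + ‖a‖ * ‖x‖ := by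
    have h4 : T v - ν • v = (a • x + (T v - ν • v)) - a • x := by abel
    conv_lhs => rw [h4]
    refine (norm_sub_le _ _).trans ?_
    rw [norm_smul]
  have h5 : ‖a‖ * ‖x‖ ≤ ‖a • x + (T v - ν • v)‖ * (‖x‖ / d) := by
    rw [mul_div_assoc', le_div_iff₀ hd]
    calc ‖a‖ * ‖x‖ * d = (‖a‖ * d) * ‖x‖ := by ring
      _ ≤ _ := mul_le_mul_of_nonneg_right h1 (norm_nonneg x)
  rw [div_mul_eq_mul_div, div_le_iff₀ hxx]
  calc c * ‖v‖ ≤ ‖T v - ν • v‖ := h2
    _ ≤ _ := h3
    _ ≤ ‖a • x + (T v - ν • v)‖ + ‖a • x + (T v - ν • v)‖ * (‖x‖ / d) := by linarith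
    _ = _ := by ring

/-- uniform joint lower bound on a compact subset of `U₁`. -/
theorem uniform_bound (T : E →L[ℂ] E) (M : Submodule ℂ E)
    (hMc : IsClosed (M : Set E)) (hMT : ∀ y ∈ M, T y ∈ M) (hMf : FiniteDimensional ℂ (E ⧸ M))
    (x : E) (hx : x ∈ M)
    (hcyc : Cyc T M x) (K : Set ℂ) (hK : IsCompact K) (hKU : K ⊆ Ubb T) :
    ∃ c : ℝ, 0 < c ∧ ∀ ν ∈ K, ∀ (a : ℂ) (v : E), v ∈ M → c * ‖v‖ ≤ ‖a • x + (T v - ν • v)‖ := by
  refine hK.induction_on (p := fun s => ∃ c : ℝ, 0 < c ∧ ∀ ν ∈ s, ∀ (a : ℂ) (v : E), v ∈ M →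
    c * ‖v‖ ≤ ‖a • x + (T v - ν • v)‖) ?_ ?_ ?_ ?_
  · exact ⟨1, one_pos, fun ν hν => absurd hν (notMem_empty ν)⟩
  · rintro s t hst ⟨c, hc, h⟩
    exact ⟨c, hc, fun ν hν => h ν (hst hν)⟩
  · rintro s t ⟨c, hc, h⟩ ⟨c', hc', h'⟩
    refine ⟨min c c', lt_min hc hc', fun ν hν a v hv => ?_⟩
    rcases hν with hν | hν
    · exact (mul_le_mul_of_nonneg_right (min_le_left _ _) (norm_nonneg v)).trans (h ν hν a v hv)
    · exact (mul_le_mul_of_nonneg_right (min_le_right _ _) (norm_nonneg v)).trans (h' ν hν a v hv)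
  · intro ν hν
    obtain ⟨c, hc, h⟩ := joint_bound T M hMc hMT hMf x hx hcyc ν (hKU hν)
    refine ⟨ball ν (c / 2), mem_nhdsWithin_of_mem_nhds (ball_mem_nhds ν (by positivity)), c / 2,
      by positivity, fun ν' hν' a v hv => ?_⟩
    rw [mem_ball, dist_eq_norm] at hν'
    have h1 := h a v hv
    have h2 : a • x + (T v - ν • v) = (a • x + (T v - ν' • v)) + (ν' - ν) • v := by
      rw [sub_smul]; abel
    rw [h2] at h1
    have h3 := norm_add_le (a • x + (T v - ν' • v)) ((ν' - ν) • v)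
    rw [norm_smul] at h3
    have h4 : ‖ν' - ν‖ * ‖v‖ ≤ c / 2 * ‖v‖ := mul_le_mul_of_nonneg_right hν'.le (norm_nonneg v)
    linarith

/-- Lemma A. -/
theorem lemmaA (T : E →L[ℂ] E) (hE : ¬ FiniteDimensional ℂ E) (hT : OnlyFiniteCodim T)
    (Ω : Set ℂ) (hb : Bornology.IsBounded Ω) (hfr : frontier Ω ⊆ Ubb T) (μ : ℂ)
    (hμ : μ ∈ Ω) : μ ∉ essentialSpectrum T := by
  obtain ⟨x, hx0⟩ : ∃ x : E, x ≠ 0 := by
    by_contra hcon
    push Not at hcon
    apply hE
    have : Subsingleton E := ⟨fun a b => by rw [hcon a, hcon b]⟩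
    infer_instance
  have hMc := isClosed_cyclic T x
  have hMT := cyclic_inv T x
  have hMf := cyclic_finite T hT x hx0
  have hx := mem_cyclic T x
  have hcyc := cyclic_cyc T x
  set M := cyclic T x with hM
  have hK : IsCompact (frontier Ω) :=
    hb.isCompact_closure.of_isClosed_subset isClosed_frontier frontier_subset_closure
  obtain ⟨c, hc, hbound⟩ := uniform_bound T M hMc hMT hMf x hx hcyc _ hK hfr
  have hinj := injective_of T hE hT
  -- estimate on polynomials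
  have key : ∀ g : ℂ[X], c * ‖aeval T g x‖ ≤ ‖T (aeval T g x) - μ • aeval T g x‖ := by
    intro g
    set p : ℂ[X] := (X - C μ) * g with hp
    obtain ⟨G, hG1, hG2, hG3⟩ := exists_G T x M hMT hx p
    have hval : aeval T p x = T (aeval T g x) - μ • aeval T g x := by
      rw [hp, map_mul, mul_apply_eq_comp, map_sub, aeval_X, aeval_C, sub_apply,
        Algebra.algebraMap_eq_smul_one]
      rfl
    have hGμ : G μ = aeval T g x := by
      have h1 := hG3 μ
      rw [hval, hp, eval_mul, eval_sub, eval_X, eval_C, sub_self, zero_mul, zero_smul,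
        zero_add] at h1
      have h2 : T (G μ - aeval T g x) = μ • (G μ - aeval T g x) := by
        rw [map_sub, smul_sub]
        rw [sub_eq_sub_iff_sub_eq_sub]
        exact h1.symm
      exact sub_eq_zero.1 (hinj _ _ h2)
    have hmax := Complex.norm_le_of_forall_mem_frontier_norm_le (f := G) (U := Ω)
      (C := ‖aeval T p x‖ / c) hb hG1.diffContOnCl (fun ν hν => by
        rw [le_div_iff₀ hc, mul_comm]
        refine (hbound ν hν (p.eval ν) (G ν) (hG2 ν)).trans_eq ?_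
        rw [← hG3 ν]) (subset_closure hμ)
    rw [le_div_iff₀ hc, hGμ, hval, mul_comm] at hmax
    exact hmax
  apply notMem_of_bb T M hMc hMT hMf x hx hcyc μ c hc
  intro y hy
  have hy' := hcyc y hy
  have hclosed : IsClosed {y : E | c * ‖y‖ ≤ ‖T y - μ • y‖} := by
    apply isClosed_le
    · fun_prop
    · exact (T.continuous.sub (continuous_const_smul μ)).norm
  refine closure_minimal ?_ hclosed hy'
  rintro _ ⟨g, rfl⟩
  exact key g

/-- Lemma B helper: no nontrivial idempotent in the commutant. -/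
theorem no_idempotent (T : E →L[ℂ] E) (hE : ¬ FiniteDimensional ℂ E) (hT : OnlyFiniteCodim T)
    (e : E →L[ℂ] E) (he : e * e = e) (hcomm : Commute e T) (h0 : e ≠ 0) (h1 : e ≠ 1) : False := by
  have hee : ∀ y, e (e y) = e y := fun y => congrFun (congrArg DFunLike.coe he) y
  have heT : ∀ y, e (T y) = T (e y) := fun y => congrFun (congrArg DFunLike.coe hcomm.eq) y
  obtain ⟨y0, hy0⟩ : ∃ y, e y ≠ 0 := by
    by_contra hcon
    push Not at hcon
    exact h0 (ContinuousLinearMap.ext hcon)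
  obtain ⟨y1, hy1⟩ : ∃ y, e y ≠ y := by
    by_contra hcon
    push Not at hcon
    exact h1 (ContinuousLinearMap.ext hcon)
  let K : Submodule ℂ E := LinearMap.ker (e : E →ₗ[ℂ] E)
  let L : Submodule ℂ E := LinearMap.ker ((1 - e : E →L[ℂ] E) : E →ₗ[ℂ] E)
  have hKm : ∀ y, y ∈ K ↔ e y = 0 := fun y => Iff.rfl
  have hLm : ∀ y, y ∈ L ↔ e y = y := fun y => by
    show y - e y = 0 ↔ _
    rw [sub_eq_zero, eq_comm]
  have hKc : IsClosed (K : Set E) := e.isClosed_ker
  have hLc : IsClosed (L : Set E) := (1 - e).isClosed_ker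
  have hKf : FiniteDimensional ℂ (E ⧸ K) := by
    apply hT K hKc
    · intro y hy
      rw [hKm] at hy ⊢
      rw [heT, hy, map_zero]
    · intro hbot
      have : y1 - e y1 ∈ K := by rw [hKm, map_sub, hee, sub_self]
      rw [hbot, Submodule.mem_bot, sub_eq_zero] at this
      exact hy1 this.symm
    · intro htop
      have : y0 ∈ K := by rw [htop]; trivial
      exact hy0 this
  have hLf : FiniteDimensional ℂ (E ⧸ L) := by
    apply hT L hLc
    · intro y hy
      rw [hLm] at hy ⊢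
      rw [heT, hy]
    · intro hbot
      have : e y0 ∈ L := by rw [hLm, hee]
      rw [hbot, Submodule.mem_bot] at this
      exact hy0 this
    · intro htop
      have : y1 ∈ L := by rw [htop]; trivial
      rw [hLm] at this
      exact hy1 this
  have hinf : FiniteDimensional ℂ (E ⧸ (K ⊓ L)) := Submodule.CoFG.inf hKf hLf
  have hKL : K ⊓ L = ⊥ := by
    rw [eq_bot_iff]
    rintro y ⟨hyK, hyL⟩
    have h2 := (hKm y).1 hyK
    have h3 := (hLm y).1 hyL
    rw [Submodule.mem_bot, ← h3, h2]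
  rw [hKL] at hinf
  exact hE ((Module.Finite.iff_cofg_bot ℂ E).1 hinf)

end Op

end Pool.Agent.Lib.MP_15dca6_an


open Set Topology Filter Metric Polynomial

namespace Pool.Agent.Lib.MP_15dca6_an

section Op

variable {E : Type*} [NormedAddCommGroup E] [NormedSpace ℂ E] [CompleteSpace E]

theorem annulus_boundary (c : ℂ) (r R : ℝ) (hr : 0 < r) (hR : r < R) :
    ¬ IsPreconnected (sphere c r ∪ sphere c R) := by
  intro h
  have h1 := h.image (fun z => dist z c) (by fun_prop)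
  have h2 := h1.ordConnected
  have hr' : r ∈ (fun z => dist z c) '' (sphere c r ∪ sphere c R) :=
    ⟨c + (r : ℂ), Or.inl (by simp [abs_of_pos hr]), by simp [abs_of_pos hr]⟩
  have hR' : R ∈ (fun z => dist z c) '' (sphere c r ∪ sphere c R) :=
    ⟨c + (R : ℂ), Or.inr (by simp [abs_of_pos (hr.trans hR)]), by simp [abs_of_pos (hr.trans hR)]⟩
  obtain ⟨z, hz, hzm⟩ := h2.out hr' hR' (show (r + R) / 2 ∈ Icc r R from
    ⟨by linarith, by linarith⟩)
  simp only [mem_union, mem_sphere] at hz hzm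
  rcases hz with hz | hz <;> linarith

theorem main (T : E →L[ℂ] E) (hE : ¬ FiniteDimensional ℂ E) (hT : OnlyFiniteCodim T) :
    IsConnected (essentialSpectrum T) := by
  have hnt : Nontrivial E := by
    by_contra hcon
    rw [not_nontrivial_iff_subsingleton] at hcon
    exact hE inferInstance
  have hU₀ : IsOpen (resolventSet ℂ T) := spectrum.isOpen_resolventSet T
  have hU₁ := isOpen_Ubb T
  have hdisj : Disjoint (resolventSet ℂ T) (Ubb T) := by
    rw [Set.disjoint_left]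
    rintro μ h1 ⟨-, h2⟩
    exact h2 h1
  have hcompl : (resolventSet ℂ T ∪ Ubb T)ᶜ = essentialSpectrum T := by
    ext μ
    rw [mem_compl_iff, mem_union]
    constructor
    · intro h
      by_contra hcon
      rw [notMem_iff_bb T hE hT] at hcon
      by_cases hr : μ ∈ resolventSet ℂ T
      · exact h (Or.inl hr)
      · exact h (Or.inr ⟨hcon, hr⟩)
    · rintro h (h1 | ⟨h1, -⟩)
      · exact (notMem_iff_bb T hE hT μ).2 (bb_of_resolvent T μ h1) h
      · exact (notMem_iff_bb T hE hT μ).2 h1 h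
  have hR : ∀ z : ℂ, ‖T‖ < ‖z‖ → z ∈ resolventSet ℂ T := by
    intro z hz
    by_contra hcon
    have := spectrum.norm_le_norm_of_mem (show z ∈ spectrum ℂ T from hcon)
    linarith
  have hcomp : IsCompact (essentialSpectrum T) := by
    apply Metric.isCompact_of_isClosed_isBounded
    · rw [← hcompl]
      exact (hU₀.union hU₁).isClosed_compl
    · apply (Metric.isBounded_closedBall (x := (0 : ℂ)) (r := ‖T‖)).subset
      intro z hz
      rw [mem_closedBall_zero_iff]
      by_contra hcon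
      push Not at hcon
      rw [← hcompl] at hz
      exact hz (Or.inl (hR z hcon))
  have hsub : essentialSpectrum T ⊆ spectrum ℂ T := by
    intro z hz hcon
    rw [← hcompl] at hz
    exact hz (Or.inl hcon)
  refine ⟨?_, ?_⟩
  · -- nonempty
    by_contra hne
    rw [Set.not_nonempty_iff_eq_empty] at hne
    rw [hne, Set.compl_empty_iff] at hcompl
    have hsp : spectrum ℂ T = Ubb T := by
      ext z
      constructor
      · intro hz
        rcases (hcompl ▸ mem_univ z : z ∈ resolventSet ℂ T ∪ Ubb T) with h | h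
        · exact absurd h hz
        · exact h
      · rintro ⟨-, hz⟩
        exact hz
    have hclopen : IsClopen (spectrum ℂ T) :=
      ⟨spectrum.isClosed T, by rw [hsp]; exact hU₁⟩
    rcases isClopen_iff.1 hclopen with h | h
    · exact (spectrum.nonempty T).ne_empty h
    · have h1 := hR (((‖T‖ + 1 : ℝ) : ℂ)) (by
        rw [Complex.norm_real, Real.norm_eq_abs, abs_of_pos (by positivity)]; linarith)
      have h2 : (((‖T‖ + 1 : ℝ) : ℂ)) ∈ spectrum ℂ T := by rw [h]; trivial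
      exact h2 h1
  · rw [isPreconnected_closed_iff]
    intro t t' ht ht' hst hnt hnt'
    by_contra hcon
    rw [Set.not_nonempty_iff_eq_empty] at hcon
    set K₁ := essentialSpectrum T ∩ t with hK₁
    set K₂ := essentialSpectrum T ∩ t' with hK₂
    have h1 : IsCompact K₁ := hcomp.inter_right ht
    have h2 : IsCompact K₂ := hcomp.inter_right ht'
    have h3 : Disjoint K₁ K₂ := by
      rw [Set.disjoint_left]
      rintro z ⟨hz, hz1⟩ ⟨-, hz2⟩
      have : z ∈ essentialSpectrum T ∩ (t ∩ t') := ⟨hz, hz1, hz2⟩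
      rw [hcon] at this
      exact this
    have h4 : (resolventSet ℂ T ∪ Ubb T)ᶜ = K₁ ∪ K₂ := by
      rw [hcompl, hK₁, hK₂, ← Set.inter_union_distrib_left]
      exact (Set.inter_eq_left.2 hst).symm
    rcases separation (resolventSet ℂ T) (Ubb T) K₁ K₂ hU₀ hU₁ hdisj h1 h2 h3 hnt h4 ‖T‖ hR with
      ⟨Ω, hΩ, hb, hfr, z, hz, hzK⟩ | ⟨Ω, hΩ, hb, hfr, hK1, hK2⟩
    · have hz' : z ∈ essentialSpectrum T := by
        rcases hzK with h | h
        · exact h.1
        · exact h.1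
      exact lemmaA T hE hT Ω hb hfr z hz hz'
    · obtain ⟨z1, hz1⟩ := hnt
      obtain ⟨z2, hz2⟩ := hnt'
      obtain ⟨e, he, hc, h0, h1⟩ := riesz T Ω hΩ hb hfr ⟨z1, hsub hz1.1, hK1 hz1⟩
        ⟨z2, hsub hz2.1, fun h => (Set.disjoint_left.1 hK2) hz2 h⟩
      exact no_idempotent T hE hT e he hc h0 h1

end Op

end Pool.Agent.Lib.MP_15dca6_an
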